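import Pool.Agent.N534.EC.Good

/-!
# Two families: `y² = x³ + A(u) x + B(u) + t`, and the quadratic twists of a curve
-/

set_option autoImplicit false

namespace Pool.Agent.N534.EC

open NumberField IsDedekindDomain Finset Filter Topology
open Pool.Agent.H921R2.TatePole (nm two_le_nm nm_summable below deg nm_eq kerPrime kerPrime_bijective)
open Pool.Agent.H341R2.EC (trc csum csum_twist cub_eval)
open Pool.Agent.Y722.HS (EM red box EB EM_mono EM_const p_pos)
open Pool.Agent.Y722.LS (Fam bb EM_mul)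
open Pool.Agent.N534.LL (Sys)

variable {K : Type} [Field K] [NumberField K]

section
variable {ι : Type} [Fintype ι] [DecidableEq ι]

omit [Fintype ι] [DecidableEq ι] [NumberField K] in
theorem cast_congr {p : ℕ} {c c' : ι → ℤ} (h : red p c = red p c') (i : ι) :
    ((p : ℕ) : 𝓞 K) ∣ ((c i : ℤ) : 𝓞 K) - ((c' i : ℤ) : 𝓞 K) := by
  have h1 : ((c' i : ℤ) : ZMod p) = ((c i : ℤ) : ZMod p) := (congrFun h i).symm
  rw [ZMod.intCast_eq_intCast_iff_dvd_sub] at h1
  obtain ⟨k, hk⟩ := h1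
  refine ⟨(k : 𝓞 K), ?_⟩
  have := congrArg (Int.cast : ℤ → 𝓞 K) hk
  push_cast at this
  exact this

omit [NumberField K] in
theorem eval_congr {J : Type} (p : ℕ) (A : MvPolynomial J (𝓞 K)) (x y : J → 𝓞 K)
    (h : ∀ j, ((p : ℕ) : 𝓞 K) ∣ x j - y j) : ((p : ℕ) : 𝓞 K) ∣ MvPolynomial.eval x A - MvPolynomial.eval y A := by
  rw [← Ideal.mem_span_singleton, ← Ideal.Quotient.eq]
  have h1 : ∀ z : J → 𝓞 K, Ideal.Quotient.mk (Ideal.span {((p : ℕ) : 𝓞 K)}) (MvPolynomial.eval z A) =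
      MvPolynomial.eval₂ (Ideal.Quotient.mk (Ideal.span {((p : ℕ) : 𝓞 K)}))
        (fun j => Ideal.Quotient.mk (Ideal.span {((p : ℕ) : 𝓞 K)}) (z j)) A := by
    intro z
    have h2 := MvPolynomial.eval₂_comp_left (Ideal.Quotient.mk (Ideal.span {((p : ℕ) : 𝓞 K)}))
      (RingHom.id (𝓞 K)) z A
    rw [RingHom.comp_id] at h2
    exact h2
  rw [h1, h1]
  congr 1
  funext j
  rw [Ideal.Quotient.eq, Ideal.mem_span_singleton]
  exact h j

end

section
variable {I J : Type} [Fintype I] [Fintype J] [DecidableEq I] [DecidableEq J]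
variable (ω : Module.Basis I ℤ (𝓞 K)) (A B : MvPolynomial J (𝓞 K))

theorem par_ca : Par (ca (I := I) A) (ra A) where
  map := fun p φ c => map_ca A p φ c
  congr := fun p c c' h => eval_congr p A _ _ fun j => cast_congr h (Sum.inr j)

theorem par_cb : Par (cb ω B) (rb ω B) where
  map := fun p φ c => map_cb ω B p φ c
  congr := by
    intro p c c' h
    unfold cb
    have h1 := eval_congr p B (fun j => ((c (Sum.inr j) : ℤ) : 𝓞 K)) (fun j => ((c' (Sum.inr j) : ℤ) : 𝓞 K))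
      fun j => cast_congr h (Sum.inr j)
    have h2 : ((p : ℕ) : 𝓞 K) ∣ ∑ i, (((c (Sum.inl i) : ℤ) : 𝓞 K) - ((c' (Sum.inl i) : ℤ) : 𝓞 K)) * ω i :=
      Finset.dvd_sum fun i _ => Dvd.dvd.mul_right (cast_congr h (Sum.inl i)) _
    have h3 := dvd_add h1 h2
    convert h3 using 1
    simp only [sub_mul, Finset.sum_sub_distrib]
    ring

/-- **The family `y² = x³ + A(u) x + B(u) + t`.** -/
theorem sys_two : Sys (1 + (5 : ℕ) + dK K * 2 + (dK K * 2) ^ 2) (206 * dK K) (Nf (Sf ω A B) 5)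
    (Bf (Df ω A B) 5) (fun c => lamG (ca (I := I) A c) (cb ω B c)) :=
  sys_good (par_ca A) (par_cb ω B) (trFam ω A B) (fun _ _ _ _ _ _ => rfl) (fun _ _ _ _ _ h => h)

end

/-! ### Quadratic twists -/

section
variable {I : Type} [Fintype I] [DecidableEq I] (ω : Module.Basis I ℤ (𝓞 K)) (a b : 𝓞 K)

/-- the integer with given coordinates -/
noncomputable def dc (c : I → ℤ) : 𝓞 K := ∑ i, ((c i : ℤ) : 𝓞 K) * ω i

/-- the same modulo `p` -/
noncomputable def rd (p : ℕ) (φ : 𝓞 K →+* ZMod p) (r : I → ZMod p) : ZMod p := ∑ i, r i * φ (ω i)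

theorem map_dc (p : ℕ) (φ : 𝓞 K →+* ZMod p) (c : I → ℤ) : φ (dc ω c) = rd ω p φ (red p c) := by
  unfold dc rd
  rw [map_sum]
  refine Finset.sum_congr rfl fun i _ => ?_
  rw [map_mul, map_intCast]
  rfl

theorem dc_congr (p : ℕ) (c c' : I → ℤ) (h : red p c = red p c') : ((p : ℕ) : 𝓞 K) ∣ dc ω c - dc ω c' := by
  unfold dc
  rw [← Finset.sum_sub_distrib]
  refine Finset.dvd_sum fun i _ => ?_
  rw [← sub_mul]
  exact Dvd.dvd.mul_right (cast_congr h i) _

theorem par_mul_pow (n : ℕ) : Par (fun c => a * dc ω c ^ n) (fun p φ r => φ a * rd ω p φ r ^ n) where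
  map := by
    intro p φ c
    rw [map_mul, map_pow, map_dc]
  congr := by
    intro p c c' h
    rw [← mul_sub]
    exact Dvd.dvd.mul_left ((dc_congr ω p c c' h).trans (sub_dvd_pow_sub_pow _ _ n)) _

/-- the trace of the twist -/
noncomputable def St (p : ℕ) [Fact p.Prime] (φ : 𝓞 K →+* ZMod p) (r : I → ZMod p) : ℝ :=
  -(csum (-48 * (φ a * rd ω p φ r ^ 2)) (-864 * (φ b * rd ω p φ r ^ 3)) : ℝ)

/-- bad reduction of the twist -/
def Dt (p : ℕ) [Fact p.Prime] (φ : 𝓞 K →+* ZMod p) (r : I → ZMod p) : Prop :=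
  4 * (φ a * rd ω p φ r ^ 2) ^ 3 + 27 * (φ b * rd ω p φ r ^ 3) ^ 2 = 0

theorem exists_dir' (p : ℕ) (φ : 𝓞 K →+* ZMod p) : ∃ e : I → ZMod p, rd ω p φ e = 1 := by
  refine ⟨fun i => ((ω.repr 1 i : ℤ) : ZMod p), ?_⟩
  have h1 := ω.sum_repr 1
  have h2 := congrArg φ h1
  rw [map_sum] at h2
  unfold rd
  rw [← map_one φ, ← h2]
  refine Finset.sum_congr rfl fun i _ => ?_
  rw [zsmul_eq_mul, map_mul, map_intCast]

theorem rd_shift (p : ℕ) (φ : 𝓞 K →+* ZMod p) (r e : I → ZMod p) (he : rd ω p φ e = 1) (s : ZMod p) :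
    rd ω p φ (r + s • e) = rd ω p φ r + s := by
  unfold rd at he ⊢
  have h2 : ∀ i, (r + s • e) i * φ (ω i) = r i * φ (ω i) + s * (e i * φ (ω i)) := by
    intro i
    simp only [Pi.add_apply, Pi.smul_apply, smul_eq_mul]
    ring
  rw [Finset.sum_congr rfl fun i _ => h2 i, Finset.sum_add_distrib, ← Finset.mul_sum, he, mul_one]

theorem csum_zero {k : Type*} [Field k] [Fintype k] [DecidableEq k] (hk : ringChar k ≠ 2) :
    csum (0 : k) 0 = 0 := by
  unfold csum
  rw [← quadraticChar_sum_zero hk]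
  refine Finset.sum_congr rfl fun x _ => ?_
  rw [cub_eval]
  have : x ^ 3 - 27 * 0 * x - 54 * 0 = x ^ 2 * x := by ring
  rw [this, map_mul]
  by_cases hx : x = 0
  · rw [hx]; simp
  · rw [map_pow, quadraticChar_sq_one hx, one_mul]

theorem csum_tw {k : Type*} [Field k] [Fintype k] [DecidableEq k] (hk : ringChar k ≠ 2) (P Q d : k) :
    csum (-48 * (P * d ^ 2)) (-864 * (Q * d ^ 3)) = quadraticChar k d * csum (-48 * P) (-864 * Q) := by
  by_cases hd : d = 0
  · rw [hd]
    simp only [ne_eq, OfNat.ofNat_ne_zero, not_false_eq_true, zero_pow, mul_zero, quadraticChar_zero, zero_mul]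
    exact csum_zero hk
  · rw [← csum_twist hd]
    congr 1 <;> ring

theorem ringChar_ne {p : ℕ} [Fact p.Prime] (h5 : 5 ≤ p) : ringChar (ZMod p) ≠ 2 := by
  rw [ZMod.ringChar_zmod_n]
  omega

/-- a bound for the primes of bad reduction -/
noncomputable def pbad (a b : 𝓞 K) : ℕ := 5 + (Algebra.norm ℤ (4 * a ^ 3 + 27 * b ^ 2)).natAbs

theorem good_of_large (h0 : 4 * a ^ 3 + 27 * b ^ 2 ≠ 0) (p : ℕ) [hp : Fact p.Prime] (hpp : pbad a b ≤ p)
    (φ : 𝓞 K →+* ZMod p) : 4 * φ a ^ 3 + 27 * φ b ^ 2 ≠ 0 := by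
  intro h
  have h1 : 4 * a ^ 3 + 27 * b ^ 2 ∈ RingHom.ker φ := by
    rw [RingHom.mem_ker]
    simp only [map_mul, map_add, map_pow, map_ofNat]
    exact h
  have h2 := Ideal.absNorm_dvd_norm_of_mem h1
  have h3 : ((kerPrime (⟨p, hp.out⟩ : Nat.Primes) φ).1.1).asIdeal = RingHom.ker φ := rfl
  have h4 := Pool.Agent.H341R2.nm_kerPrime (K := K) (⟨p, hp.out⟩ : Nat.Primes) φ
  have h5 : Ideal.absNorm (RingHom.ker φ) = p := h4
  rw [h5] at h2
  have h6 : Algebra.norm ℤ (4 * a ^ 3 + 27 * b ^ 2) ≠ 0 := by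
    rw [Algebra.norm_ne_zero_iff]
    exact h0
  have h7 := Int.natAbs_dvd_natAbs.mpr h2
  rw [Int.natAbs_natCast] at h7
  have h8 := Nat.le_of_dvd (Int.natAbs_pos.mpr h6) h7
  unfold pbad at hpp
  omega

theorem trFam_twist (h0 : 4 * a ^ 3 + 27 * b ^ 2 ≠ 0) : TrFam (St ω a b) (Dt ω a b) 2 (pbad a b) where
  C0 := by norm_num
  five := by unfold pbad; omega
  mean := by
    intro p hp hpp φ
    have h5 : 5 ≤ p := by unfold pbad at hpp; omega
    obtain ⟨e, he⟩ := exists_dir' ω p φ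
    rw [EM_shift p e]
    have h1 : (fun r : I → ZMod p => (∑ s : ZMod p, St ω a b p φ (r + s • e)) / (p : ℝ)) = fun _ => 0 := by
      funext r
      have h2 : ∑ s : ZMod p, St ω a b p φ (r + s • e) = 0 := by
        unfold St
        simp only [rd_shift ω p φ r e he, csum_tw (ringChar_ne h5)]
        rw [Finset.sum_neg_distrib, ← Int.cast_sum, ← Finset.sum_mul]
        have h3 := sum_char (k := ZMod p) (ringChar_ne h5) (rd ω p φ r) 1 one_ne_zero
        simp only [one_mul] at h3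
        rw [h3, zero_mul]
        simp
      rw [h2, zero_div]
    rw [h1, EM_const]
  bd := by
    intro p hp hpp φ r
    have h5 : 5 ≤ p := by unfold pbad at hpp; omega
    unfold St
    rw [abs_neg]
    have := csum_le (six_ne hp.out h5) (-48 * (φ a * rd ω p φ r ^ 2)) (-864 * (φ b * rd ω p φ r ^ 3))
    rwa [ZMod.card] at this
  bad := by
    intro p hp hpp φ
    classical
    have hp0 := p_pos (p := p)
    obtain ⟨e, he⟩ := exists_dir' ω p φ
    rw [EM_shift p e]
    have h1 : EM p (fun r : I → ZMod p =>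
        (∑ s : ZMod p, if Dt ω a b p φ (r + s • e) then (1 : ℝ) else 0) / (p : ℝ)) ≤
        EM p (fun _ : I → ZMod p => (2 : ℝ) / p) := by
      apply EM_mono
      intro r
      refine div_le_div_of_nonneg_right ?_ hp0.le
      rw [Finset.sum_ite, Finset.sum_const_zero, add_zero, Finset.sum_const, nsmul_eq_mul, mul_one]
      have h2 : (Finset.univ.filter fun s : ZMod p => Dt ω a b p φ (r + s • e)) ⊆ {-rd ω p φ r} := by
        intro s hs
        rw [Finset.mem_filter] at hs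
        have h3 := hs.2
        unfold Dt at h3
        rw [rd_shift ω p φ r e he] at h3
        have h4 : (4 * φ a ^ 3 + 27 * φ b ^ 2) * (rd ω p φ r + s) ^ 6 = 0 := by
          rw [← h3]
          ring
        rcases mul_eq_zero.mp h4 with h5 | h5
        · exact absurd h5 (good_of_large a b h0 p hpp φ)
        · have h6 : rd ω p φ r + s = 0 := pow_eq_zero_iff (by norm_num) |>.mp h5
          rw [Finset.mem_singleton]
          linear_combination h6
      have h3 := Finset.card_le_card h2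
      rw [Finset.card_singleton] at h3
      have h4 : ((Finset.univ.filter fun s : ZMod p => Dt ω a b p φ (r + s • e)).card : ℝ) ≤ 1 := by
        exact_mod_cast h3
      linarith
    refine h1.trans ?_
    rw [EM_const]

/-- **The family of the quadratic twists.** -/
theorem sys_twist (h0 : 4 * a ^ 3 + 27 * b ^ 2 ≠ 0) :
    Sys (1 + (pbad a b : ℕ) + dK K * 2 + (dK K * 2) ^ 2) (206 * dK K) (Nf (St ω a b) (pbad a b))
    (Bf (Dt ω a b) (pbad a b)) (fun c => lamG (a * dc ω c ^ 2) (b * dc ω c ^ 3)) :=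
  sys_good (par_mul_pow ω a 2) (par_mul_pow ω b 3) (trFam_twist ω a b h0) (fun _ _ _ _ _ _ => rfl)
    (fun _ _ _ _ _ h => h)

end

end Pool.Agent.N534.EC
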