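import Pool.Agent.N534.EC.Laws

/-!
# The limit laws in terms of the Euler factors
-/

set_option autoImplicit false

namespace Pool.Agent.N534.EC.State

open NumberField IsDedekindDomain Finset Filter Topology MeasureTheory
open Pool.Agent.H921R2.TatePole (nm two_le_nm nm_summable below deg nm_eq kerPrime below_eq_of_mem)
open Pool.Agent.H341R2.EC (trc csum aff dlt mk_ne)
open Pool.Agent.R433.MD (lf norm_nm_cpow)
open Pool.Agent.N534.LL (Sys PP PS Y liftp law)
open Pool.Agent.N534.EC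

section
variable {K : Type} [Field K] [NumberField K]

/-- `6 (4 a³ + 27 b²)` -/
noncomputable def disc (a b : 𝓞 K) : 𝓞 K := 6 * (4 * a ^ 3 + 27 * b ^ 2)

open Classical in
/-- the Euler factor -/
noncomputable def factor (a b : 𝓞 K) (s : ℂ) (v : HeightOneSpectrum (𝓞 K)) : ℂ :=
  if disc a b ∈ v.asIdeal then 1 else
    1 - ((((Ideal.absNorm v.asIdeal : ℕ) : ℤ) -
          ((Nat.card {p : (𝓞 K ⧸ v.asIdeal) × (𝓞 K ⧸ v.asIdeal) //
            p.2 ^ 2 = p.1 ^ 3 + Ideal.Quotient.mk v.asIdeal a * p.1 + Ideal.Quotient.mk v.asIdeal b} : ℕ) : ℤ) : ℤ) : ℂ)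
          * ((Ideal.absNorm v.asIdeal : ℕ) : ℂ) ^ (-s)
      + ((Ideal.absNorm v.asIdeal : ℕ) : ℂ) ^ (1 - 2 * s)

/-- the `L`-function -/
noncomputable def LSeries (a b : 𝓞 K) (s : ℂ) : ℂ :=
  ∏' v : HeightOneSpectrum (𝓞 K), (factor a b s v)⁻¹

theorem aff_shm (a b : 𝓞 K) (v : HeightOneSpectrum (𝓞 K)) :
    aff (Pool.Agent.H341R2.EC.red v (shm a b v)) =
      Nat.card {p : (𝓞 K ⧸ v.asIdeal) × (𝓞 K ⧸ v.asIdeal) //
            p.2 ^ 2 = p.1 ^ 3 + Ideal.Quotient.mk v.asIdeal a * p.1 + Ideal.Quotient.mk v.asIdeal b} := by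
  unfold aff
  refine Nat.card_congr (Equiv.subtypeEquivRight fun p => ?_)
  unfold Pool.Agent.H341R2.EC.red shm WeierstrassCurve.map
  simp only [map_zero, zero_mul, add_zero]

theorem factor_bad {a b : 𝓞 K} {v : HeightOneSpectrum (𝓞 K)} (h : dd a b ∈ v.asIdeal) (s : ℂ) :
    factor a b s v = 1 := by
  unfold factor
  exact if_pos h

theorem factor_good {a b : 𝓞 K} {v : HeightOneSpectrum (𝓞 K)} (h : dd a b ∉ v.asIdeal) (s : ℂ) :
    factor a b s v = 1 - (trc (shm a b) v : ℂ) * ((nm v : ℕ) : ℂ) ^ (-s) + ((nm v : ℕ) : ℂ) ^ (1 - 2 * s) := by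
  unfold factor
  have h' : disc a b ∉ v.asIdeal := h
  rw [if_neg h', ← aff_shm]
  rfl

theorem dlt_good {a b : 𝓞 K} {v : HeightOneSpectrum (𝓞 K)} (h : dd a b ∉ v.asIdeal) :
    dlt (shm a b) v = 1 := by
  have hΔ : (shm a b v).Δ ∉ v.asIdeal := by
    intro h4
    apply h
    have e : (shm a b v).Δ = -16 * (4 * a ^ 3 + 27 * b ^ 2) := by
      unfold shm WeierstrassCurve.Δ WeierstrassCurve.b₂ WeierstrassCurve.b₄ WeierstrassCurve.b₆
        WeierstrassCurve.b₈
      ring
    rw [e] at h4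
    rcases v.isPrime.mem_or_mem h4 with h5 | h5
    · exfalso
      apply six_of_dd h
      have h6 : (2 : 𝓞 K) ∈ v.asIdeal := by
        have h7 : (2 : 𝓞 K) ^ 4 ∈ v.asIdeal := by
          have : (2 : 𝓞 K) ^ 4 = -(-16) := by norm_num
          rw [this]
          exact v.asIdeal.neg_mem h5
        exact v.isPrime.mem_of_pow_mem 4 h7
      have : (6 : 𝓞 K) = 3 * 2 := by norm_num
      rw [this]
      exact v.asIdeal.mul_mem_left _ h6
    · unfold dd
      exact v.asIdeal.mul_mem_left _ h5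
  unfold dlt
  rw [if_neg hΔ]

theorem neg_log_factor (a b : 𝓞 K) (s : ℂ) (v : HeightOneSpectrum (𝓞 K)) :
    -Complex.log (factor a b s v) = lg a b (s - 3 / 2) v := by
  unfold lg
  by_cases h : dd a b ∈ v.asIdeal
  · rw [if_pos h, factor_bad h, Complex.log_one, neg_zero]
  · rw [if_neg h, factor_good h]
    unfold ll lf
    rw [dlt_good h, one_mul]
    have e : (3 / 2 + (s - 3 / 2) : ℂ) = s := by ring
    rw [e]

theorem LSeries_eq (a b : 𝓞 K) (s : ℂ) (hs : 3 / 2 < s.re) :
    LSeries a b s = Complex.exp (∑' p : Nat.Primes, lamG a b (p : ℕ) (s - 3 / 2)) := by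
  have h0 : 0 < (s - 3 / 2 : ℂ).re := by
    have : (s - 3 / 2 : ℂ).re = s.re - 3 / 2 := by simp
    rw [this]
    linarith
  rw [← exp_lg a b h0]
  unfold LSeries
  refine tprod_congr fun v => ?_
  have e : (3 / 2 + (s - 3 / 2) : ℂ) = s := by ring
  rw [e]
  by_cases h : dd a b ∈ v.asIdeal
  · rw [if_pos h, factor_bad h, inv_one]
  · rw [if_neg h, factor_good h]

end

/-! ### The random Euler product -/

/-- Vectors of residue classes, one for each rational prime. -/
abbrev Residues (ι : Type) : Type := ∀ p : Nat.Primes, ι → ZMod (p : ℕ)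

/-- The residue classes are independent and uniform. -/
noncomputable def uniform (ι : Type) [Fintype ι] [DecidableEq ι] : Measure (Residues ι) :=
  Measure.infinitePi fun p => (PMF.uniformOfFintype (ι → ZMod (p : ℕ))).toMeasure

/-- An integer vector in the residue class modulo `p`. -/
def lift {ι : Type} (x : Residues ι) (p : Nat.Primes) : ι → ℤ := fun i => ((x p i).val : ℤ)

/-- The integer vectors with coordinates of absolute value at most `H`. -/
noncomputable def box (ι : Type) [Fintype ι] [DecidableEq ι] (H : ℕ) : Finset (ι → ℤ) :=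
  Fintype.piFinset fun _ => Finset.Icc (-(H : ℤ)) H

section
variable {K : Type} [Field K] [NumberField K]

/-- The prime numbers up to `z`. -/
def primesUpTo (z : ℕ) : Finset Nat.Primes := (Finset.range (z + 1)).subtype Nat.Prime

/-- The sum of the logarithms of the random Euler factors above the rational primes `p ≤ z`. -/
noncomputable def randomLog {ι : Type} (a b : (ι → ℤ) → 𝓞 K) (z : ℕ) (s : ℂ) (x : Residues ι) : ℂ :=
  ∑ p ∈ primesUpTo z,
    ∑ᶠ v : {v : HeightOneSpectrum (𝓞 K) // ((p : ℕ) : 𝓞 K) ∈ v.asIdeal},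
      -Complex.log (factor (a (lift x p)) (b (lift x p)) s v.1)

theorem fsum_eq (p : Nat.Primes) (f : HeightOneSpectrum (𝓞 K) → ℂ) :
    ∑ᶠ v : {v : HeightOneSpectrum (𝓞 K) // ((p : ℕ) : 𝓞 K) ∈ v.asIdeal}, f v.1 =
      ∑ v : {v : HeightOneSpectrum (𝓞 K) // below v = p}, f v.1 := by
  have he : ∀ v : HeightOneSpectrum (𝓞 K), ((p : ℕ) : 𝓞 K) ∈ v.asIdeal ↔ below v = p := by
    intro v
    refine ⟨fun h => below_eq_of_mem h, fun h => ?_⟩
    have h1 := (nm_eq v).2.2
    rwa [h] at h1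
  have h1 := finsum_comp_equiv (Equiv.subtypeEquivRight he) (f := fun v : {v : HeightOneSpectrum (𝓞 K) // below v = p} => f v.1)
  rw [← finsum_eq_sum_of_fintype, ← h1]
  rfl

theorem range_PS (z : ℕ) : primesUpTo z = PS z :=
  Finset.ext fun p => (Finset.mem_subtype (p := Nat.Prime) (a := p)).trans
    (Finset.mem_range.trans (Nat.lt_succ_iff.trans Pool.Agent.N534.LL.mem_PS.symm))

theorem randomLog_eq {ι : Type} (a b : (ι → ℤ) → 𝓞 K) (z : ℕ) (s : ℂ) (x : Residues ι) :
    randomLog a b z s x = Y (fun c => lamG (a c) (b c)) z (s - 3 / 2) x := by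
  unfold randomLog Y
  rw [range_PS]
  refine Finset.sum_congr rfl fun p _ => ?_
  have h1 := lamG_prime (a (liftp (x p))) (b (liftp (x p))) p (s - 3 / 2)
  refine Eq.trans ?_ h1.symm
  rw [fsum_eq p (fun v => -Complex.log (factor (a (lift x p)) (b (lift x p)) s v))]
  refine Finset.sum_congr rfl fun v _ => ?_
  exact neg_log_factor _ _ s v.1

/-- **The limit law in terms of the Euler factors.** -/
theorem state {ι : Type} [Fintype ι] [DecidableEq ι] {A β : ℝ} {N B : ∀ p : ℕ, (ι → ZMod p) → ℝ}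
    {a b : (ι → ℤ) → 𝓞 K} (h : Sys A β N B (fun c => lamG (a c) (b c)))
    {κ : Type} [Fintype κ] (s : κ → ℂ) (hs : ∀ k, 3 / 2 ≤ (s k).re) :
    ∃ Z : κ → Residues ι → ℂ, (∀ k, Measurable (Z k)) ∧ (∀ k, Integrable (Z k) (uniform ι)) ∧
      (∀ k, Tendsto (fun z : ℕ => ∫ x, ‖randomLog a b z (s k) x - Z k x‖ ∂(uniform ι)) atTop (𝓝 0)) ∧
      ∀ σ : ℕ → κ → ℂ, (∀ k, Tendsto (fun H => σ H k) atTop (𝓝 (s k))) →
        (∀ k, Tendsto (fun H : ℕ => ((σ H k).re - 3 / 2) * Real.log H) atTop atTop) →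
        (∀ F : (κ → ℂ) → ℝ, Continuous F → (∃ C : ℝ, ∀ y, |F y| ≤ C) →
          Tendsto (fun H : ℕ => (∑ c ∈ box ι H, F (fun k => LSeries (a c) (b c) (σ H k))) / (box ι H).card)
            atTop (𝓝 (∫ x, F (fun k => Complex.exp (Z k x)) ∂(uniform ι)))) ∧
        (∀ E : Set (κ → ℂ), MeasurableSet E →
          uniform ι {x | (fun k => Complex.exp (Z k x)) ∈ frontier E} = 0 →
          Tendsto (fun H : ℕ => (open Classical in ((box ι H).filter
            (fun c => (fun k => LSeries (a c) (b c) (σ H k)) ∈ E)).card : ℝ) / (box ι H).card) atTop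
            (𝓝 ((uniform ι).real {x | (fun k => Complex.exp (Z k x)) ∈ E}))) := by
  have hre : ∀ z : ℂ, (z - 3 / 2 : ℂ).re = z.re - 3 / 2 := fun z => by simp
  obtain ⟨Z, h1, h2, h3, h4⟩ := law h (fun k => s k - 3 / 2) (fun k => by rw [hre]; linarith [hs k])
  refine ⟨Z, h1, h2, fun k => ?_, fun σ hσ hσl => ?_⟩
  · have h5 := h3 k
    simp only [← randomLog_eq] at h5
    exact h5
  · have hlogN : Tendsto (fun H : ℕ => Real.log H) atTop atTop :=
      Real.tendsto_log_atTop.comp tendsto_natCast_atTop_atTop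
    have hpos : ∀ k, ∀ᶠ H : ℕ in atTop, 3 / 2 < (σ H k).re := by
      intro k
      filter_upwards [(hσl k).eventually_gt_atTop 0, hlogN.eventually_gt_atTop 0] with H h1 h2
      have := pos_of_mul_pos_left h1 h2.le
      linarith
    exact h4 (fun H k => σ H k - 3 / 2) (fun k => (hσ k).sub_const _) (fun k => by
      simpa only [hre] using hσl k) (fun H c k => LSeries (a c) (b c) (σ H k)) (by
      filter_upwards [eventually_all.mpr hpos] with H hH c _ k
      exact LSeries_eq (a c) (b c) (σ H k) (hH k))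

end

end Pool.Agent.N534.EC.State
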