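import Pool.Agent.N534.EC.Local
import Pool.Agent.N534.LF.Maj

/-!
# Families of elliptic curves over a number field: from the primes of the field to the rational primes
-/

set_option autoImplicit false

namespace Pool.Agent.N534.EC

open NumberField IsDedekindDomain Complex Finset
open Pool.Agent.H921R2.TatePole (nm two_le_nm nm_summable below deg nm_eq below_le_nm fiber_card_le kerPrime
  kerPrime_bijective hom_finite R_eq_hc R_le hc)
open Pool.Agent.H341R2.EC (trc)
open Pool.Agent.H341R2 (low low_eq nm_kerPrime)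
open Pool.Agent.R433.MD (lf norm_nm_cpow)
open Pool.Agent.Y722.HS (EM red box EB EM_mono EM_const p_pos)
open Pool.Agent.Y722.LS (Fam bb EM_add EM_mul EM_nonneg)
open Pool.Agent.N534.LF (Loc)

variable {K : Type} [Field K] [NumberField K] {ι : Type} [Fintype ι] [DecidableEq ι]

theorem six_notMem {pp : Nat.Primes} (h5 : 5 ≤ (pp : ℕ)) (v : HeightOneSpectrum (𝓞 K))
    (hv : below v = pp) : (6 : 𝓞 K) ∉ v.asIdeal := by
  intro h6
  have h1 := (nm_eq v).2.2
  rw [hv] at h1
  obtain ⟨p, hp⟩ := pp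
  simp only at h1 h5
  have hcop : Nat.Coprime 6 p := by
    have h2 : Nat.Coprime p 2 := (Nat.coprime_primes hp Nat.prime_two).mpr (by omega)
    have h3 : Nat.Coprime p 3 := (Nat.coprime_primes hp Nat.prime_three).mpr (by omega)
    have : Nat.Coprime p (2 * 3) := h2.mul_right h3
    exact this.symm
  have h2 : IsCoprime ((6 : ℕ) : ℤ) (p : ℤ) := Nat.isCoprime_iff_coprime.mpr hcop
  obtain ⟨a, b, hab⟩ := h2
  apply v.isPrime.ne_top
  rw [Ideal.eq_top_iff_one]
  have h3 : (1 : 𝓞 K) = (a : 𝓞 K) * 6 + (b : 𝓞 K) * (p : 𝓞 K) := by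
    have := congrArg (Int.cast : ℤ → 𝓞 K) hab
    push_cast at this
    exact this.symm
  rw [h3]
  exact v.asIdeal.add_mem (v.asIdeal.mul_mem_left _ h6) (v.asIdeal.mul_mem_left _ h1)

/-- the sum of the local logarithms above `p` -/
noncomputable def lamP (V : HeightOneSpectrum (𝓞 K) → WeierstrassCurve (𝓞 K)) (p : Nat.Primes) (u : ℂ) : ℂ :=
  ∑ v : {v : HeightOneSpectrum (𝓞 K) // below v = p}, ll V u v.1

open Classical in
/-- the sum of the local logarithms above `p` -/
noncomputable def lamV (V : HeightOneSpectrum (𝓞 K) → WeierstrassCurve (𝓞 K)) (p : ℕ) (u : ℂ) : ℂ :=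
  if h : p.Prime then lamP V ⟨p, h⟩ u else 0

theorem lamV_prime (V : HeightOneSpectrum (𝓞 K) → WeierstrassCurve (𝓞 K)) (p : Nat.Primes) (u : ℂ) :
    lamV V p u = lamP V p u := by
  unfold lamV
  rw [dif_pos p.2]
  rfl

variable (K) in
/-- the degree of the field -/
noncomputable def dK : ℝ := Module.finrank ℚ K

theorem dK_nonneg : 0 ≤ dK K := by unfold dK; positivity

theorem one_le_dK : 1 ≤ dK K := by
  unfold dK
  exact_mod_cast Module.finrank_pos (R := ℚ) (M := K)

theorem sum_fib_le (p : Nat.Primes) (g : {v : HeightOneSpectrum (𝓞 K) // below v = p} → ℝ) (C : ℝ)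
    (hC : 0 ≤ C) (h : ∀ v, g v ≤ C) : ∑ v, g v ≤ dK K * C := by
  refine (Finset.sum_le_sum fun v _ => h v).trans ?_
  rw [Finset.sum_const, nsmul_eq_mul]
  apply mul_le_mul_of_nonneg_right _ hC
  rw [Finset.card_univ]
  unfold dK
  exact_mod_cast fiber_card_le p

theorem nm_ge {p : Nat.Primes} (v : HeightOneSpectrum (𝓞 K)) (hv : below v = p) :
    ((p : ℕ) : ℝ) ≤ nm v := by
  have := below_le_nm v
  rw [hv] at this
  exact_mod_cast this

theorem lamP_bound (V : HeightOneSpectrum (𝓞 K) → WeierstrassCurve (𝓞 K)) (p : Nat.Primes) (u : ℂ)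
    (hu : 0 ≤ u.re) : ‖lamP V p u‖ ≤ 200 * dK K * ((p : ℕ) : ℝ) ^ (-1 - u.re) := by
  have hp2 : (2 : ℝ) ≤ (p : ℕ) := by exact_mod_cast p.2.two_le
  have hd := dK_nonneg (K := K)
  have hpow : 0 ≤ ((p : ℕ) : ℝ) ^ (-1 - u.re) := by positivity
  unfold lamP
  refine (norm_sum_le _ _).trans ?_
  by_cases h5 : 5 ≤ (p : ℕ)
  · have h1 := sum_fib_le (K := K) p (fun v => ‖ll V u v.1‖) (6 * ((p : ℕ) : ℝ) ^ (-1 - u.re))
      (by positivity) (by
        intro v
        refine (ll_good V v.1 (six_notMem h5 v.1 v.2) u hu).trans ?_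
        have := Real.rpow_le_rpow_of_nonpos (by linarith) (nm_ge v.1 v.2)
          (by linarith : -1 - u.re ≤ 0)
        linarith)
    refine h1.trans ?_
    nlinarith [mul_nonneg hd hpow]
  · have hp4 : ((p : ℕ) : ℝ) ≤ 4 := by
      have : (p : ℕ) ≤ 4 := by omega
      exact_mod_cast this
    have h1 := sum_fib_le (K := K) p (fun v => ‖ll V u v.1‖) (200 * ((p : ℕ) : ℝ) ^ (-1 - u.re))
      (by positivity) (by
        intro v
        refine (ll_all V v.1 u hu).trans ?_
        have h2 := Real.rpow_le_rpow_of_nonpos (by linarith) (nm_ge v.1 v.2)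
          (by linarith : -(1 / 2) - u.re ≤ 0)
        have h3 : ((p : ℕ) : ℝ) ^ (-(1 / 2) - u.re) =
            ((p : ℕ) : ℝ) ^ ((1 : ℝ) / 2) * ((p : ℕ) : ℝ) ^ (-1 - u.re) := by
          rw [← Real.rpow_add (by linarith)]
          congr 1
          ring
        have h4 : ((p : ℕ) : ℝ) ^ ((1 : ℝ) / 2) ≤ 2 := by
          rw [← Real.sqrt_eq_rpow]
          rw [show (2 : ℝ) = Real.sqrt 4 by
            rw [show (4 : ℝ) = 2 ^ 2 by norm_num, Real.sqrt_sq (by norm_num)]]
          exact Real.sqrt_le_sqrt hp4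
        rw [h3] at h2
        nlinarith)
    refine h1.trans (le_of_eq ?_)
    ring

/-- Trace functions and exceptional sets on the residue classes. -/
structure TrFam (S : ∀ (p : ℕ) [Fact p.Prime], (𝓞 K →+* ZMod p) → (ι → ZMod p) → ℝ)
    (D : ∀ (p : ℕ) [Fact p.Prime], (𝓞 K →+* ZMod p) → (ι → ZMod p) → Prop) (C : ℝ) (p0 : ℕ) : Prop where
  C0 : 0 ≤ C
  five : 5 ≤ p0
  mean : ∀ (p : ℕ) [Fact p.Prime], p0 ≤ p → ∀ φ, EM p (S p φ) = 0
  bd : ∀ (p : ℕ) [Fact p.Prime], p0 ≤ p → ∀ φ r, |S p φ r| ≤ C * Real.sqrt p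
  bad : ∀ (p : ℕ) [Fact p.Prime], p0 ≤ p → ∀ φ,
    EM p (fun r => open Classical in if D p φ r then (1 : ℝ) else 0) ≤ C / p

open Classical in
/-- the normalised sum of the traces at the primes of degree one above `p` -/
noncomputable def Nf (S : ∀ (p : ℕ) [Fact p.Prime], (𝓞 K →+* ZMod p) → (ι → ZMod p) → ℝ) (p0 : ℕ)
    (p : ℕ) (r : ι → ZMod p) : ℝ :=
  if h : p.Prime ∧ p0 ≤ p then
    haveI := Fact.mk h.1
    (∑ᶠ φ : 𝓞 K →+* ZMod p, S p φ r) / (p : ℝ) ^ ((3 : ℝ) / 2) else 0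

open Classical in
/-- the exceptional residue classes -/
noncomputable def Bf (D : ∀ (p : ℕ) [Fact p.Prime], (𝓞 K →+* ZMod p) → (ι → ZMod p) → Prop) (p0 : ℕ)
    (p : ℕ) (r : ι → ZMod p) : ℝ :=
  if h : p.Prime ∧ p0 ≤ p then
    haveI := Fact.mk h.1
    if ∃ φ : 𝓞 K →+* ZMod p, D p φ r then 1 else 0
  else 1

section
variable {S : ∀ (p : ℕ) [Fact p.Prime], (𝓞 K →+* ZMod p) → (ι → ZMod p) → ℝ}
  {D : ∀ (p : ℕ) [Fact p.Prime], (𝓞 K →+* ZMod p) → (ι → ZMod p) → Prop} {C : ℝ} {p0 : ℕ}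

theorem finite_hom (p : ℕ) [hp : Fact p.Prime] : Finite (𝓞 K →+* ZMod p) := hom_finite ⟨p, hp.out⟩

theorem card_hom (p : ℕ) [hp : Fact p.Prime] : (Nat.card (𝓞 K →+* ZMod p) : ℝ) ≤ dK K := by
  have h1 := R_le (K := K) ⟨p, hp.out⟩
  have h2 := R_eq_hc (K := K) ⟨p, hp.out⟩
  unfold hc at h2
  rw [h2] at h1
  unfold dK
  exact_mod_cast h1

theorem Nf_eq (p : ℕ) [hp : Fact p.Prime] (h : p0 ≤ p) (r : ι → ZMod p)
    [Fintype (𝓞 K →+* ZMod p)] :
    Nf S p0 p r = (∑ φ : 𝓞 K →+* ZMod p, S p φ r) / (p : ℝ) ^ ((3 : ℝ) / 2) := by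
  unfold Nf
  rw [dif_pos ⟨hp.out, h⟩, finsum_eq_sum_of_fintype]

theorem Nf_small (p : ℕ) (h : ¬ (p.Prime ∧ p0 ≤ p)) (r : ι → ZMod p) : Nf S p0 p r = 0 := by
  unfold Nf
  rw [dif_neg h]

theorem Bf_eq (p : ℕ) [hp : Fact p.Prime] (h : p0 ≤ p) (r : ι → ZMod p) :
    Bf D p0 p r = open Classical in if ∃ φ : 𝓞 K →+* ZMod p, D p φ r then 1 else 0 := by
  unfold Bf
  rw [dif_pos ⟨hp.out, h⟩]

theorem Bf_small (p : ℕ) (h : ¬ (p.Prime ∧ p0 ≤ p)) (r : ι → ZMod p) : Bf D p0 p r = 1 := by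
  unfold Bf
  rw [dif_neg h]

theorem Nf_abs (h : TrFam S D C p0) (p : ℕ) [hp : Fact p.Prime] (r : ι → ZMod p) :
    |Nf S p0 p r| ≤ dK K * C / p := by
  classical
  have hp0 := p_pos (p := p)
  have hC := h.C0
  have hd := dK_nonneg (K := K)
  by_cases hpp : p0 ≤ p
  · have := finite_hom (K := K) p
    let _ : Fintype (𝓞 K →+* ZMod p) := Fintype.ofFinite _
    rw [Nf_eq p hpp]
    rw [abs_div, abs_of_pos (by positivity : (0 : ℝ) < (p : ℝ) ^ ((3 : ℝ) / 2))]
    have h1 : |∑ φ : 𝓞 K →+* ZMod p, S p φ r| ≤ dK K * (C * Real.sqrt p) := by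
      refine (Finset.abs_sum_le_sum_abs _ _).trans ?_
      refine (Finset.sum_le_sum fun φ _ => h.bd p hpp φ r).trans ?_
      rw [Finset.sum_const, nsmul_eq_mul, Finset.card_univ]
      apply mul_le_mul_of_nonneg_right _ (by positivity)
      rw [← Nat.card_eq_fintype_card]
      exact card_hom p
    have h2 : (p : ℝ) ^ ((3 : ℝ) / 2) = p * Real.sqrt p := by
      rw [Real.sqrt_eq_rpow, ← Real.rpow_one_add' hp0.le (by norm_num)]
      norm_num
    have h3 : 0 < Real.sqrt p := Real.sqrt_pos.mpr hp0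
    rw [h2, div_le_div_iff₀ (by positivity) hp0]
    calc _ ≤ dK K * (C * Real.sqrt p) * p := by gcongr
      _ = _ := by ring
  · rw [Nf_small p (fun h => hpp h.2), abs_zero]
    positivity

theorem EM_sum' {κ : Type*} (s : Finset κ) (p : ℕ) [NeZero p] (f : κ → (ι → ZMod p) → ℝ) :
    EM p (fun c => ∑ k ∈ s, f k c) = ∑ k ∈ s, EM p (f k) := by
  unfold EM
  rw [Finset.sum_comm, Finset.sum_div]

theorem fam (h : TrFam S D C p0) : Fam (1 + p0 + dK K * C + (dK K * C) ^ 2) (Nf S p0) (Bf D p0) where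
  A0 := by
    have := h.C0
    have := dK_nonneg (K := K)
    have : 0 ≤ (p0 : ℝ) + dK K * C + (dK K * C) ^ 2 := by positivity
    linarith
  sq := by
    intro p hp
    have hp0 := p_pos (p := p)
    have hC := h.C0
    have hd := dK_nonneg (K := K)
    have h1 : EM p (fun c => Nf S p0 p c ^ 2) ≤ EM p (fun _ : ι → ZMod p => (dK K * C / p) ^ 2) := by
      apply EM_mono
      intro c
      rw [← sq_abs]
      have := Nf_abs h p c
      gcongr
    refine h1.trans ?_
    rw [EM_const, div_pow]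
    have : 0 ≤ 1 + (p0 : ℝ) + dK K * C := by positivity
    gcongr
    linarith
  mean := by
    intro p hp
    classical
    have hp0 := p_pos (p := p)
    have hC := h.C0
    have hd := dK_nonneg (K := K)
    have h1 : EM p (fun c => Nf S p0 p c) = 0 := by
      by_cases hpp : p0 ≤ p
      · have := finite_hom (K := K) p
        let _ : Fintype (𝓞 K →+* ZMod p) := Fintype.ofFinite _
        have e1 : (fun c => Nf S p0 p c) = fun c => (1 / (p : ℝ) ^ ((3 : ℝ) / 2)) *
            ∑ φ : 𝓞 K →+* ZMod p, S p φ c := by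
          funext c
          rw [Nf_eq p hpp]
          ring
        rw [e1, EM_mul, EM_sum', Finset.sum_eq_zero fun φ _ => h.mean p hpp φ, mul_zero]
      · have e1 : (fun c => Nf S p0 p c) = fun _ => 0 := by
          funext c
          exact Nf_small p (fun h => hpp h.2) c
        rw [e1, EM_const]
    rw [h1, abs_zero]
    positivity
  nonneg := by
    intro p c
    unfold Bf
    split_ifs <;> norm_num
  le_one := by
    intro p c
    unfold Bf
    split_ifs <;> norm_num
  bad := by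
    intro p hp
    classical
    have hp0 := p_pos (p := p)
    have hC := h.C0
    have hd := dK_nonneg (K := K)
    by_cases hpp : p0 ≤ p
    · have := finite_hom (K := K) p
      let _ : Fintype (𝓞 K →+* ZMod p) := Fintype.ofFinite _
      have h1 : EM p (fun c => Bf D p0 p c) ≤
          EM p (fun c => ∑ φ : 𝓞 K →+* ZMod p, if D p φ c then (1 : ℝ) else 0) := by
        apply EM_mono
        intro c
        rw [Bf_eq p hpp]
        split_ifs with h2
        · obtain ⟨φ, hφ⟩ := h2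
          have h3 := Finset.single_le_sum (f := fun φ : 𝓞 K →+* ZMod p => if D p φ c then (1 : ℝ) else 0)
            (s := Finset.univ) (fun ψ _ => by split_ifs <;> norm_num) (Finset.mem_univ φ)
          simp only [if_pos hφ] at h3
          exact h3
        · exact Finset.sum_nonneg fun ψ _ => by split_ifs <;> norm_num
      refine h1.trans ?_
      rw [EM_sum']
      have h2 : ∑ φ : 𝓞 K →+* ZMod p, EM p (fun c => if D p φ c then (1 : ℝ) else 0) ≤ dK K * (C / p) := by
        refine (Finset.sum_le_sum fun φ _ => h.bad p hpp φ).trans ?_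
        rw [Finset.sum_const, nsmul_eq_mul, Finset.card_univ]
        apply mul_le_mul_of_nonneg_right _ (by positivity)
        rw [← Nat.card_eq_fintype_card]
        exact card_hom p
      refine h2.trans ?_
      rw [mul_div_assoc']
      have : 0 ≤ 1 + (p0 : ℝ) + (dK K * C) ^ 2 := by positivity
      gcongr
      linarith
    · have e1 : (fun c => Bf D p0 p c) = fun _ => 1 := by
        funext c
        exact Bf_small p (fun h => hpp h.2) c
      rw [e1, EM_const, le_div_iff₀ hp0, one_mul]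
      have h3 : (p : ℝ) ≤ p0 := by
        have : p ≤ p0 := by omega
        exact_mod_cast this
      have : 0 ≤ dK K * C + (dK K * C) ^ 2 := by positivity
      linarith

theorem near_aux (h : TrFam S D C p0) (V : HeightOneSpectrum (𝓞 K) → WeierstrassCurve (𝓞 K))
    (pp : Nat.Primes) [hfp : Fact (pp : ℕ).Prime] (r : ι → ZMod (pp : ℕ))
    (htr : p0 ≤ (pp : ℕ) → ∀ φ : 𝓞 K →+* ZMod (pp : ℕ), ¬ D (pp : ℕ) φ r →
      (trc V (kerPrime pp φ).1.1 : ℝ) = S (pp : ℕ) φ r) (u : ℂ) (hu : 0 ≤ u.re) :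
    ‖lamP V pp u - ((pp : ℕ) : ℂ) ^ (-u) * (Nf S p0 (pp : ℕ) r : ℂ)‖ ≤
      bb (Nf S p0) (Bf D p0) (200 * dK K) (pp : ℕ) r +
        200 * dK K * (1 / ((pp : ℕ) : ℝ) ^ ((3 : ℝ) / 2)) := by
  classical
  have hp2 : (2 : ℝ) ≤ (pp : ℕ) := by exact_mod_cast pp.2.two_le
  have hp0 : (0 : ℝ) < (pp : ℕ) := by linarith
  have hpc : ((pp : ℕ) : ℂ) ≠ 0 := by exact_mod_cast pp.2.ne_zero
  have hd := dK_nonneg (K := K)
  have hb := lamP_bound V pp u hu
  have hb' : ‖lamP V pp u‖ ≤ 200 * dK K / (pp : ℕ) := by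
    refine hb.trans ?_
    rw [div_eq_mul_inv, ← Real.rpow_neg_one]
    gcongr
    · linarith
    · linarith
  have hpu : ‖((pp : ℕ) : ℂ) ^ (-u)‖ ≤ 1 := by
    rw [Complex.norm_natCast_cpow_of_pos pp.2.pos]
    exact Real.rpow_le_one_of_one_le_of_nonpos (by linarith) (by simpa using hu)
  have herr : 0 ≤ 200 * dK K * (1 / ((pp : ℕ) : ℝ) ^ ((3 : ℝ) / 2)) := by positivity
  have hbad : Bf D p0 (pp : ℕ) r = 1 →
      ‖lamP V pp u - ((pp : ℕ) : ℂ) ^ (-u) * (Nf S p0 (pp : ℕ) r : ℂ)‖ ≤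
        bb (Nf S p0) (Bf D p0) (200 * dK K) (pp : ℕ) r +
          200 * dK K * (1 / ((pp : ℕ) : ℝ) ^ ((3 : ℝ) / 2)) := by
    intro h1
    unfold bb
    rw [h1, one_mul]
    refine (norm_sub_le _ _).trans ?_
    rw [norm_mul, Complex.norm_real, Real.norm_eq_abs]
    have : ‖((pp : ℕ) : ℂ) ^ (-u)‖ * |Nf S p0 (pp : ℕ) r| ≤ 1 * |Nf S p0 (pp : ℕ) r| := by gcongr
    linarith
  by_cases hpp : p0 ≤ (pp : ℕ)
  · by_cases hD : ∃ φ : 𝓞 K →+* ZMod (pp : ℕ), D (pp : ℕ) φ r
    · apply hbad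
      rw [Bf_eq (pp : ℕ) hpp, if_pos hD]
    · have h5 : 5 ≤ (pp : ℕ) := h.five.trans hpp
      have hbb : bb (Nf S p0) (Bf D p0) (200 * dK K) (pp : ℕ) r = 0 := by
        unfold bb
        rw [Bf_eq (pp : ℕ) hpp, if_neg hD, zero_mul]
      rw [hbb, zero_add]
      push Not at hD
      have := finite_hom (K := K) (pp : ℕ)
      let _ : Fintype (𝓞 K →+* ZMod (pp : ℕ)) := Fintype.ofFinite _
      have h6 : ∀ v : {v : HeightOneSpectrum (𝓞 K) // below v = pp}, (6 : 𝓞 K) ∉ v.1.asIdeal :=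
        fun v => six_notMem h5 v.1 v.2
      set t : HeightOneSpectrum (𝓞 K) → ℂ := fun v =>
        (trc V v : ℂ) * ((nm v : ℕ) : ℂ) ^ (-((3 : ℂ) / 2 + u)) with ht
      have e1 : ((pp : ℕ) : ℂ) ^ (-u) * (Nf S p0 (pp : ℕ) r : ℂ) =
          ∑ v : {v : HeightOneSpectrum (𝓞 K) // below v = pp}, if deg v.1 = 1 then t v.1 else 0 := by
        have e2 : ∀ v : {v : HeightOneSpectrum (𝓞 K) // below v = pp},
            (if deg v.1 = 1 then t v.1 else 0) =
            ((pp : ℕ) : ℂ) ^ (-((3 : ℂ) / 2 + u)) *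
              (((if deg v.1 = 1 then (trc V v.1 : ℝ) else 0 : ℝ)) : ℂ) := by
          intro v
          split_ifs with h7
          · have h8 := (nm_eq v.1).1
            rw [v.2, h7, pow_one] at h8
            rw [ht]
            simp only
            rw [h8]
            push_cast
            ring
          · simp
        rw [Finset.sum_congr rfl fun v _ => e2 v, ← Finset.mul_sum, ← Complex.ofReal_sum]
        have e3 : ∑ v : {v : HeightOneSpectrum (𝓞 K) // below v = pp},
            (if deg v.1 = 1 then (trc V v.1 : ℝ) else 0) = ∑ φ : 𝓞 K →+* ZMod (pp : ℕ), S (pp : ℕ) φ r := by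
          have := low_eq (fun v => (trc V v : ℝ)) pp
          unfold low at this
          refine Eq.trans ?_ (this.trans ?_)
          · refine Finset.sum_congr rfl fun v _ => ?_
            congr
          · refine Finset.sum_congr rfl fun φ _ => ?_
            exact htr hpp φ (hD φ)
        rw [e3, Nf_eq (pp : ℕ) hpp]
        have e4 : ((pp : ℕ) : ℂ) ^ (-((3 : ℂ) / 2 + u)) =
            ((pp : ℕ) : ℂ) ^ (-u) * (((1 / ((pp : ℕ) : ℝ) ^ ((3 : ℝ) / 2) : ℝ)) : ℂ) := by
          rw [neg_add, Complex.cpow_add _ _ hpc, mul_comm]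
          congr 1
          rw [one_div, ← Real.rpow_neg hp0.le, Complex.ofReal_cpow hp0.le]
          push_cast
          rfl
        rw [e4]
        push_cast
        ring
      rw [e1]
      unfold lamP
      rw [← Finset.sum_sub_distrib]
      refine (norm_sum_le _ _).trans ?_
      have h7 := sum_fib_le (K := K) pp
        (fun v => ‖ll V u v.1 - (if deg v.1 = 1 then t v.1 else 0)‖) (12 * (1 / ((pp : ℕ) : ℝ) ^ 2))
        (by positivity) (by
          intro v
          have hq := nm_ge v.1 v.2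
          have hq0 : (0 : ℝ) < nm v.1 := by linarith
          have h8 := ll_near V v.1 (h6 v) u hu
          have h9 : 10 * (1 / (nm v.1 : ℝ) ^ 2) ≤ 10 * (1 / ((pp : ℕ) : ℝ) ^ 2) := by gcongr
          by_cases h10 : deg v.1 = 1
          · rw [if_pos h10]
            have : 0 ≤ 1 / ((pp : ℕ) : ℝ) ^ 2 := by positivity
            have h11 : ‖ll V u v.1 - t v.1‖ ≤ 10 * (1 / (nm v.1 : ℝ) ^ 2) := h8
            linarith
          · rw [if_neg h10, sub_zero]
            have h11 : ‖ll V u v.1‖ ≤ ‖ll V u v.1 - t v.1‖ + ‖t v.1‖ := by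
              have := norm_add_le (ll V u v.1 - t v.1) (t v.1)
              rwa [sub_add_cancel] at this
            have h12 : ‖t v.1‖ ≤ 2 * (1 / ((pp : ℕ) : ℝ) ^ 2) := by
              rw [ht]
              simp only
              rw [norm_mul, norm_nm_cpow]
              have h13 : ‖(trc V v.1 : ℂ)‖ = |(trc V v.1 : ℝ)| := by
                rw [← Complex.ofReal_intCast, Complex.norm_real, Real.norm_eq_abs]
              rw [h13]
              have h14 := trc_hasse V v.1 (h6 v)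
              have h15 : (-((3 : ℂ) / 2 + u)).re = -(3 / 2 + u.re) := by
                rw [Complex.neg_re, re_s]
              rw [h15]
              have h16 : |(trc V v.1 : ℝ)| * (nm v.1 : ℝ) ^ (-(3 / 2 + u.re)) ≤
                  2 * (nm v.1 : ℝ) ^ (-1 - u.re) := by
                rw [← sqrt_mul_rpow _ hq0, ← mul_assoc]
                gcongr
              refine h16.trans ?_
              have h17 : (nm v.1 : ℝ) ^ (-1 - u.re) ≤ (nm v.1 : ℝ) ^ (-1 : ℝ) :=
                Real.rpow_le_rpow_of_exponent_le (by linarith) (by linarith)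
              rw [Real.rpow_neg_one] at h17
              have h18 : ((pp : ℕ) : ℝ) ^ 2 ≤ nm v.1 := by
                obtain ⟨k1, k2, k3⟩ := nm_eq v.1
                rw [v.2] at k1
                have k4 : 2 ≤ deg v.1 := by omega
                have k5 : (pp : ℕ) ^ 2 ≤ nm v.1 := by
                  rw [k1]
                  exact Nat.pow_le_pow_right pp.2.pos k4
                exact_mod_cast k5
              have h19 : (nm v.1 : ℝ)⁻¹ ≤ 1 / ((pp : ℕ) : ℝ) ^ 2 := by
                rw [one_div]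
                exact inv_anti₀ (by positivity) h18
              linarith
            have h20 : ‖ll V u v.1 - t v.1‖ ≤ 10 * (1 / (nm v.1 : ℝ) ^ 2) := h8
            linarith)
      refine h7.trans ?_
      have h8 : 1 / ((pp : ℕ) : ℝ) ^ 2 ≤ 1 / ((pp : ℕ) : ℝ) ^ ((3 : ℝ) / 2) := by
        apply one_div_le_one_div_of_le (by positivity)
        rw [← Real.rpow_natCast]
        exact Real.rpow_le_rpow_of_exponent_le (by linarith) (by norm_num)
      have h9 : 0 ≤ 1 / ((pp : ℕ) : ℝ) ^ ((3 : ℝ) / 2) := by positivity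
      nlinarith [mul_nonneg hd h9, mul_le_mul_of_nonneg_left h8 hd]
  · apply hbad
    exact Bf_small (pp : ℕ) (fun h => hpp h.2) _

/-- The local logarithms are close to the traces on the residue classes. -/
theorem loc_of (h : TrFam S D C p0) (c : ι → ℤ) (V : HeightOneSpectrum (𝓞 K) → WeierstrassCurve (𝓞 K))
    (htr : ∀ (p : Nat.Primes) [Fact (p : ℕ).Prime], p0 ≤ (p : ℕ) → ∀ φ : 𝓞 K →+* ZMod (p : ℕ),
      ¬ D (p : ℕ) φ (red (p : ℕ) c) → (trc V (kerPrime p φ).1.1 : ℝ) = S (p : ℕ) φ (red (p : ℕ) c)) :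
    Loc (200 * dK K) (Nf S p0) (Bf D p0) c (lamV V) where
  bound := by
    intro p hp u hu
    have h1 := lamP_bound V ⟨p, hp⟩ u hu
    rw [← lamV_prime V ⟨p, hp⟩ u] at h1
    exact h1
  near := by
    intro p hp u hu
    have hfp : Fact ((⟨p, hp⟩ : Nat.Primes) : ℕ).Prime := ⟨hp⟩
    have h1 := near_aux h V ⟨p, hp⟩ (red p c) (fun h1 φ h2 => htr ⟨p, hp⟩ h1 φ h2) u hu
    rw [← lamV_prime V ⟨p, hp⟩ u] at h1
    exact h1

end

end Pool.Agent.N534.EC
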