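import Pool.Agent.N534.EC.Ser
import Pool.Agent.N534.LL.Final

/-!
# The L-function of `y² = x³ + a x + b` over a number field without the Euler factors at the primes dividing `6 Δ`
-/

set_option autoImplicit false

namespace Pool.Agent.N534.EC

open NumberField IsDedekindDomain Finset Filter Topology
open Pool.Agent.H921R2.TatePole (nm two_le_nm nm_summable below deg nm_eq kerPrime kerPrime_bijective)
open Pool.Agent.H341R2.EC (trc csum aff dlt mk_ne)
open Pool.Agent.R433.MD (lf norm_nm_cpow)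
open Pool.Agent.Y722.HS (EM red box EB EM_mono EM_const p_pos)
open Pool.Agent.Y722.LS (Fam bb)
open Pool.Agent.N534.LF (Loc)
open Pool.Agent.N534.LL (Sys)

section
variable {K : Type} [Field K] [NumberField K]

/-- the model `y² = x³ + a x + b` -/
noncomputable def shm (a b : 𝓞 K) : HeightOneSpectrum (𝓞 K) → WeierstrassCurve (𝓞 K) :=
  fun _ => ⟨0, 0, 0, a, b⟩

/-- six times the discriminant, up to the factor `-16` -/
noncomputable def dd (a b : 𝓞 K) : 𝓞 K := 6 * (4 * a ^ 3 + 27 * b ^ 2)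

omit [NumberField K] in
theorem six_of_dd {a b : 𝓞 K} {v : HeightOneSpectrum (𝓞 K)} (h : dd a b ∉ v.asIdeal) : (6 : 𝓞 K) ∉ v.asIdeal :=
  fun h6 => h (v.asIdeal.mul_mem_right _ h6)

open Classical in
/-- the logarithm of the local factor, or zero at a prime dividing `6 Δ` -/
noncomputable def lg (a b : 𝓞 K) (u : ℂ) (v : HeightOneSpectrum (𝓞 K)) : ℂ :=
  if dd a b ∈ v.asIdeal then 0 else ll (shm a b) u v

theorem lg_le (a b : 𝓞 K) (v : HeightOneSpectrum (𝓞 K)) (u : ℂ) (hu : 0 ≤ u.re) :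
    ‖lg a b u v‖ ≤ 6 * (nm v : ℝ) ^ (-1 - u.re) := by
  unfold lg
  split_ifs with h
  · rw [norm_zero]
    positivity
  · exact ll_good _ v (six_of_dd h) u hu

/-- the sum above `p` -/
noncomputable def lamGP (a b : 𝓞 K) (p : Nat.Primes) (u : ℂ) : ℂ :=
  ∑ v : {v : HeightOneSpectrum (𝓞 K) // below v = p}, lg a b u v.1

open Classical in
/-- the sum above `p` -/
noncomputable def lamG (a b : 𝓞 K) (p : ℕ) (u : ℂ) : ℂ := if h : p.Prime then lamGP a b ⟨p, h⟩ u else 0

theorem lamG_prime (a b : 𝓞 K) (p : Nat.Primes) (u : ℂ) :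
    lamG a b (p : ℕ) u = ∑ v : {v : HeightOneSpectrum (𝓞 K) // below v = p}, lg a b u v.1 := by
  unfold lamG
  rw [dif_pos p.2]
  rfl

theorem lamG_bound (a b : 𝓞 K) (p : Nat.Primes) (u : ℂ) (hu : 0 ≤ u.re) :
    ‖lamG a b (p : ℕ) u‖ ≤ 6 * dK K * ((p : ℕ) : ℝ) ^ (-1 - u.re) := by
  have hp2 : (2 : ℝ) ≤ (p : ℕ) := by exact_mod_cast p.2.two_le
  rw [lamG_prime]
  refine (norm_sum_le _ _).trans ?_
  have h1 := sum_fib_le (K := K) p (fun v => ‖lg a b u v.1‖) (6 * ((p : ℕ) : ℝ) ^ (-1 - u.re))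
    (by positivity) (by
      intro v
      refine (lg_le a b v.1 u hu).trans ?_
      have := Real.rpow_le_rpow_of_nonpos (by linarith) (nm_ge v.1 v.2)
        (by linarith : -1 - u.re ≤ 0)
      linarith)
  refine h1.trans (le_of_eq ?_)
  ring

theorem trc_shm (a b : 𝓞 K) (p : Nat.Primes) [Fact (p : ℕ).Prime] (h5 : 5 ≤ (p : ℕ))
    (φ : 𝓞 K →+* ZMod (p : ℕ)) :
    trc (shm a b) (kerPrime p φ).1.1 = -csum (-48 * φ a) (-864 * φ b) := by
  set v := (kerPrime p φ).1.1 with hv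
  have hker : ∀ x : 𝓞 K, x ∈ v.asIdeal ↔ φ x = 0 := fun x => by
    have : v.asIdeal = RingHom.ker φ := rfl
    rw [this, RingHom.mem_ker]
  have h6 : (6 : 𝓞 K) ∉ v.asIdeal := by
    rw [hker, map_ofNat]
    exact six_ne p.2 h5
  rw [trc_eq (shm a b) v h6]
  have h1 : (Pool.Agent.H341R2.EC.red v (shm a b v)).c₄ = Ideal.Quotient.mk v.asIdeal (-48 * a) := by
    unfold Pool.Agent.H341R2.EC.red shm
    simp only [WeierstrassCurve.c₄, WeierstrassCurve.b₂, WeierstrassCurve.b₄, WeierstrassCurve.map, map_mul,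
      map_neg, map_ofNat, map_zero]
    ring
  have h2 : (Pool.Agent.H341R2.EC.red v (shm a b v)).c₆ = Ideal.Quotient.mk v.asIdeal (-864 * b) := by
    unfold Pool.Agent.H341R2.EC.red shm
    simp only [WeierstrassCurve.c₆, WeierstrassCurve.b₂, WeierstrassCurve.b₄, WeierstrassCurve.b₆,
      WeierstrassCurve.map, map_mul, map_neg, map_ofNat, map_zero]
    ring
  rw [h1, h2]
  have h3 := csumv_kerPrime (-48 * a) (-864 * b) p φ
  unfold Pool.Agent.H341R2.EC.csumv at h3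
  rw [h3]
  simp only [map_mul, map_neg, map_ofNat]

theorem dd_ker (a b : 𝓞 K) (p : Nat.Primes) [Fact (p : ℕ).Prime] (h5 : 5 ≤ (p : ℕ))
    (φ : 𝓞 K →+* ZMod (p : ℕ)) (hD : 4 * φ a ^ 3 + 27 * φ b ^ 2 ≠ 0) :
    dd a b ∉ (kerPrime p φ).1.1.asIdeal := by
  have hker : (kerPrime p φ).1.1.asIdeal = RingHom.ker φ := rfl
  rw [hker, RingHom.mem_ker]
  unfold dd
  simp only [map_mul, map_add, map_pow, map_ofNat]
  exact mul_ne_zero (six_ne p.2 h5) hD

variable {ι : Type} [Fintype ι] [DecidableEq ι]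
  {S : ∀ (p : ℕ) [Fact p.Prime], (𝓞 K →+* ZMod p) → (ι → ZMod p) → ℝ}
  {D : ∀ (p : ℕ) [Fact p.Prime], (𝓞 K →+* ZMod p) → (ι → ZMod p) → Prop} {C : ℝ} {p0 : ℕ}

theorem near_good (h : TrFam S D C p0) (a b : 𝓞 K) (pp : Nat.Primes) [hfp : Fact (pp : ℕ).Prime]
    (r : ι → ZMod (pp : ℕ))
    (htr : p0 ≤ (pp : ℕ) → ∀ φ : 𝓞 K →+* ZMod (pp : ℕ), ¬ D (pp : ℕ) φ r →
      (trc (shm a b) (kerPrime pp φ).1.1 : ℝ) = S (pp : ℕ) φ r ∧ dd a b ∉ (kerPrime pp φ).1.1.asIdeal)
    (u : ℂ) (hu : 0 ≤ u.re) :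
    ‖lamG a b (pp : ℕ) u - ((pp : ℕ) : ℂ) ^ (-u) * (Nf S p0 (pp : ℕ) r : ℂ)‖ ≤
      bb (Nf S p0) (Bf D p0) (206 * dK K) (pp : ℕ) r +
        206 * dK K * (1 / ((pp : ℕ) : ℝ) ^ ((3 : ℝ) / 2)) := by
  classical
  have hp2 : (2 : ℝ) ≤ (pp : ℕ) := by exact_mod_cast pp.2.two_le
  have hp0 : (0 : ℝ) < (pp : ℕ) := by linarith
  have hd := dK_nonneg (K := K)
  have hb := lamG_bound a b pp u hu
  have hb' : ‖lamG a b (pp : ℕ) u‖ ≤ 206 * dK K / (pp : ℕ) := by
    refine hb.trans ?_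
    have h1 : ((pp : ℕ) : ℝ) ^ (-1 - u.re) ≤ ((pp : ℕ) : ℝ)⁻¹ := by
      rw [← Real.rpow_neg_one]
      exact Real.rpow_le_rpow_of_exponent_le (by linarith) (by linarith)
    rw [div_eq_mul_inv]
    have h2 : 0 ≤ ((pp : ℕ) : ℝ)⁻¹ := by positivity
    nlinarith [mul_le_mul_of_nonneg_left h1 hd, mul_nonneg hd h2]
  have hpu : ‖((pp : ℕ) : ℂ) ^ (-u)‖ ≤ 1 := by
    rw [Complex.norm_natCast_cpow_of_pos pp.2.pos]
    exact Real.rpow_le_one_of_one_le_of_nonpos (by linarith) (by simpa using hu)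
  have herr : 0 ≤ 206 * dK K * (1 / ((pp : ℕ) : ℝ) ^ ((3 : ℝ) / 2)) := by positivity
  have hbad : Bf D p0 (pp : ℕ) r = 1 →
      ‖lamG a b (pp : ℕ) u - ((pp : ℕ) : ℂ) ^ (-u) * (Nf S p0 (pp : ℕ) r : ℂ)‖ ≤
        bb (Nf S p0) (Bf D p0) (206 * dK K) (pp : ℕ) r +
          206 * dK K * (1 / ((pp : ℕ) : ℝ) ^ ((3 : ℝ) / 2)) := by
    intro h1
    unfold bb
    rw [h1, one_mul]
    refine (norm_sub_le _ _).trans ?_
    rw [norm_mul, Complex.norm_real, Real.norm_eq_abs]
    have : ‖((pp : ℕ) : ℂ) ^ (-u)‖ * |Nf S p0 (pp : ℕ) r| ≤ 1 * |Nf S p0 (pp : ℕ) r| := by gcongr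
    linarith
  by_cases hpp : p0 ≤ (pp : ℕ)
  · by_cases hD : ∃ φ : 𝓞 K →+* ZMod (pp : ℕ), D (pp : ℕ) φ r
    · apply hbad
      rw [Bf_eq (pp : ℕ) hpp, if_pos hD]
    · have h5 : 5 ≤ (pp : ℕ) := h.five.trans hpp
      have hbb : ∀ β : ℝ, bb (Nf S p0) (Bf D p0) β (pp : ℕ) r = 0 := by
        intro β
        unfold bb
        rw [Bf_eq (pp : ℕ) hpp, if_neg hD, zero_mul]
      push Not at hD
      have h1 := near_aux h (shm a b) pp r (fun h1 φ h2 => (htr h1 φ h2).1) u hu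
      rw [hbb, zero_add] at h1 ⊢
      have h2 : ‖lamG a b (pp : ℕ) u - lamP (shm a b) pp u‖ ≤ dK K * (6 * (1 / ((pp : ℕ) : ℝ) ^ 2)) := by
        rw [lamG_prime]
        unfold lamP
        rw [← Finset.sum_sub_distrib]
        refine (norm_sum_le _ _).trans ?_
        refine sum_fib_le (K := K) pp _ _ (by positivity) fun v => ?_
        by_cases hdd : dd a b ∈ v.1.asIdeal
        · have hdeg : deg v.1 ≠ 1 := by
            intro h7
            obtain ⟨φ, hφ⟩ := (kerPrime_bijective (K := K) pp).2 ⟨v, h7⟩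
            have h8 := (htr hpp φ (hD φ)).2
            rw [hφ] at h8
            exact h8 hdd
          unfold lg
          rw [if_pos hdd, zero_sub, norm_neg]
          have h9 : (6 : 𝓞 K) ∉ v.1.asIdeal := six_notMem h5 v.1 v.2
          refine (ll_good (shm a b) v.1 h9 u hu).trans ?_
          have hq := nm_ge v.1 v.2
          have hq0 : (0 : ℝ) < nm v.1 := by linarith
          have h10 : (nm v.1 : ℝ) ^ (-1 - u.re) ≤ (nm v.1 : ℝ)⁻¹ := by
            rw [← Real.rpow_neg_one]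
            exact Real.rpow_le_rpow_of_exponent_le (by linarith) (by linarith)
          have h18 : ((pp : ℕ) : ℝ) ^ 2 ≤ nm v.1 := by
            obtain ⟨k1, k2, k3⟩ := nm_eq v.1
            rw [v.2] at k1
            have k4 : 2 ≤ deg v.1 := by omega
            have k5 : (pp : ℕ) ^ 2 ≤ nm v.1 := by
              rw [k1]
              exact Nat.pow_le_pow_right pp.2.pos k4
            exact_mod_cast k5
          have h19 : (nm v.1 : ℝ)⁻¹ ≤ 1 / ((pp : ℕ) : ℝ) ^ 2 := by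
            rw [one_div]
            exact inv_anti₀ (by positivity) h18
          linarith
        · unfold lg
          rw [if_neg hdd, sub_self, norm_zero]
          positivity
      have h3 : lamG a b (pp : ℕ) u - ((pp : ℕ) : ℂ) ^ (-u) * (Nf S p0 (pp : ℕ) r : ℂ) =
          (lamG a b (pp : ℕ) u - lamP (shm a b) pp u) +
          (lamP (shm a b) pp u - ((pp : ℕ) : ℂ) ^ (-u) * (Nf S p0 (pp : ℕ) r : ℂ)) := by ring
      rw [h3]
      refine (norm_add_le _ _).trans ?_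
      have h8 : 1 / ((pp : ℕ) : ℝ) ^ 2 ≤ 1 / ((pp : ℕ) : ℝ) ^ ((3 : ℝ) / 2) := by
        apply one_div_le_one_div_of_le (by positivity)
        rw [← Real.rpow_natCast]
        exact Real.rpow_le_rpow_of_exponent_le (by linarith) (by norm_num)
      have h9 := mul_le_mul_of_nonneg_left h8 hd
      linarith
  · apply hbad
    exact Bf_small (pp : ℕ) (fun h => hpp h.2) _

/-! ### Dependence on the residue classes -/

theorem lg_congr {a b a' b' : 𝓞 K} (v : HeightOneSpectrum (𝓞 K)) (ha : a - a' ∈ v.asIdeal)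
    (hb : b - b' ∈ v.asIdeal) (u : ℂ) : lg a b u v = lg a' b' u v := by
  have ea : Ideal.Quotient.mk v.asIdeal a = Ideal.Quotient.mk v.asIdeal a' := Ideal.Quotient.eq.mpr ha
  have eb : Ideal.Quotient.mk v.asIdeal b = Ideal.Quotient.mk v.asIdeal b' := Ideal.Quotient.eq.mpr hb
  have ed : dd a b ∈ v.asIdeal ↔ dd a' b' ∈ v.asIdeal := by
    rw [← Ideal.Quotient.eq_zero_iff_mem, ← Ideal.Quotient.eq_zero_iff_mem]
    unfold dd
    simp only [map_mul, map_add, map_pow, ea, eb]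
  have er : Pool.Agent.H341R2.EC.red v (shm a b v) = Pool.Agent.H341R2.EC.red v (shm a' b' v) := by
    unfold Pool.Agent.H341R2.EC.red shm WeierstrassCurve.map
    simp only [ea, eb]
  have et : trc (shm a b) v = trc (shm a' b') v := by
    unfold trc
    rw [er]
  have eΔ : (shm a b v).Δ ∈ v.asIdeal ↔ (shm a' b' v).Δ ∈ v.asIdeal := by
    rw [← Ideal.Quotient.eq_zero_iff_mem, ← Ideal.Quotient.eq_zero_iff_mem]
    have h1 := WeierstrassCurve.map_Δ (shm a b v) (Ideal.Quotient.mk v.asIdeal)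
    have h2 := WeierstrassCurve.map_Δ (shm a' b' v) (Ideal.Quotient.mk v.asIdeal)
    rw [← h1, ← h2]
    unfold Pool.Agent.H341R2.EC.red at er
    rw [er]
  have e1 : dlt (shm a b) v = dlt (shm a' b') v := by
    unfold dlt
    by_cases hd : (shm a b v).Δ ∈ v.asIdeal
    · rw [if_pos hd, if_pos (eΔ.mp hd)]
    · rw [if_neg hd, if_neg (fun h => hd (eΔ.mpr h))]
  have e2 : ll (shm a b) u v = ll (shm a' b') u v := by
    unfold ll lf
    rw [et, e1]
  unfold lg
  rw [e2]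
  by_cases hd : dd a b ∈ v.asIdeal
  · rw [if_pos hd, if_pos (ed.mp hd)]
  · rw [if_neg hd, if_neg (fun h => hd (ed.mpr h))]

theorem lamG_congr {a b a' b' : 𝓞 K} (p : ℕ) (ha : ((p : ℕ) : 𝓞 K) ∣ a - a')
    (hb : ((p : ℕ) : 𝓞 K) ∣ b - b') : lamG a b p = lamG a' b' p := by
  funext u
  unfold lamG
  split_ifs with h
  · unfold lamGP
    refine Finset.sum_congr rfl fun v _ => lg_congr v.1 ?_ ?_ u
    · have h1 := (nm_eq v.1).2.2
      rw [v.2] at h1
      exact Ideal.mem_of_dvd v.1.asIdeal ha h1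
    · have h1 := (nm_eq v.1).2.2
      rw [v.2] at h1
      exact Ideal.mem_of_dvd v.1.asIdeal hb h1
  · rfl

/-! ### Continuity -/

theorem lg_cont (a b : 𝓞 K) (v : HeightOneSpectrum (𝓞 K)) :
    ContinuousOn (fun u => lg a b u v) {u : ℂ | 0 ≤ u.re} := by
  unfold lg
  by_cases h : dd a b ∈ v.asIdeal
  · simp only [if_pos h]
    exact continuousOn_const
  · simp only [if_neg h]
    unfold ll
    refine ContinuousOn.neg (ContinuousOn.clog ?_ ?_)
    · unfold lf
      have hn : ((nm v : ℕ) : ℂ) ≠ 0 := by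
        have := two_le_nm v
        exact_mod_cast (by omega : nm v ≠ 0)
      refine Continuous.continuousOn ?_
      refine Continuous.add (Continuous.sub continuous_const (continuous_const.mul ?_))
        (continuous_const.mul ?_)
      · exact Continuous.const_cpow (by fun_prop) (Or.inl hn)
      · exact Continuous.const_cpow (by fun_prop) (Or.inl hn)
    · intro u hu
      have h1 := sub_one_half (shm a b) v (six_of_dd h) u hu
      left
      have h2 := Complex.abs_re_le_norm (lf (shm a b) (3 / 2 + u) v - 1)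
      rw [Complex.sub_re, Complex.one_re] at h2
      have := abs_le.mp (h2.trans h1)
      linarith

theorem lamG_cont (a b : 𝓞 K) (p : ℕ) : ContinuousOn (lamG a b p) {u : ℂ | 0 ≤ u.re} := by
  by_cases h : p.Prime
  · have e : lamG a b p = fun u => lamGP a b ⟨p, h⟩ u := by
      funext u
      exact lamG_prime a b ⟨p, h⟩ u
    rw [e]
    unfold lamGP
    exact continuousOn_finsetSum _ fun v _ => lg_cont a b v.1
  · have e : lamG a b p = fun _ => 0 := by
      funext u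
      unfold lamG
      rw [dif_neg h]
    rw [e]
    exact continuousOn_const

/-! ### The system -/

/-- coefficients compatible with the reductions -/
structure Par (a : (ι → ℤ) → 𝓞 K) (ra : ∀ p : ℕ, (𝓞 K →+* ZMod p) → (ι → ZMod p) → ZMod p) : Prop where
  map : ∀ (p : ℕ) (φ : 𝓞 K →+* ZMod p) (c : ι → ℤ), φ (a c) = ra p φ (red p c)
  congr : ∀ (p : ℕ) (c c' : ι → ℤ), red p c = red p c' → ((p : ℕ) : 𝓞 K) ∣ a c - a c'

theorem sys_good {a b : (ι → ℤ) → 𝓞 K} {ra rb : ∀ p : ℕ, (𝓞 K →+* ZMod p) → (ι → ZMod p) → ZMod p}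
    (ha : Par a ra) (hb : Par b rb) (h : TrFam S D C p0)
    (hS : ∀ (p : ℕ) [Fact p.Prime], p0 ≤ p → ∀ (φ : 𝓞 K →+* ZMod p) (r : ι → ZMod p), ¬ D p φ r →
      S p φ r = -(csum (-48 * ra p φ r) (-864 * rb p φ r) : ℝ))
    (hD : ∀ (p : ℕ) [Fact p.Prime], p0 ≤ p → ∀ (φ : 𝓞 K →+* ZMod p) (r : ι → ZMod p), ¬ D p φ r →
      4 * ra p φ r ^ 3 + 27 * rb p φ r ^ 2 ≠ 0) :
    Sys (1 + p0 + dK K * C + (dK K * C) ^ 2) (206 * dK K) (Nf S p0) (Bf D p0)
      (fun c => lamG (a c) (b c)) where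
  fam := fam h
  beta := by have := dK_nonneg (K := K); positivity
  loc := by
    intro c
    refine ⟨?_, ?_⟩
    · intro p hp u hu
      have hfp : Fact ((⟨p, hp⟩ : Nat.Primes) : ℕ).Prime := ⟨hp⟩
      refine near_good h (a c) (b c) ⟨p, hp⟩ (red p c) ?_ u hu
      intro h1 φ h2
      have h5 : 5 ≤ p := h.five.trans h1
      constructor
      · rw [trc_shm (a c) (b c) ⟨p, hp⟩ h5 φ, hS p h1 φ (red p c) h2, ha.map p φ c, hb.map p φ c]
        push_cast
        rfl
      · apply dd_ker (a c) (b c) ⟨p, hp⟩ h5 φ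
        rw [ha.map p φ c, hb.map p φ c]
        exact hD p h1 φ (red p c) h2
    · intro p hp u hu
      refine (lamG_bound (a c) (b c) ⟨p, hp⟩ u hu).trans ?_
      have hd := dK_nonneg (K := K)
      have hpos : (0 : ℝ) ≤ ((p : ℕ) : ℝ) ^ (-1 - u.re) := by positivity
      have : 6 * dK K * (p : ℝ) ^ (-1 - u.re) ≤ 206 * dK K * (p : ℝ) ^ (-1 - u.re) := by
        apply mul_le_mul_of_nonneg_right _ hpos
        linarith
      exact this
  red := fun p _ c c' hcc => lamG_congr p (ha.congr p c c' hcc) (hb.congr p c c' hcc)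
  cont := fun p _ c => lamG_cont (a c) (b c) p

/-! ### The Euler product -/

theorem lg_summable (a b : 𝓞 K) {u : ℂ} (hu : 0 < u.re) :
    Summable fun v : HeightOneSpectrum (𝓞 K) => lg a b u v := by
  have h1 : Summable fun v : HeightOneSpectrum (𝓞 K) => 6 * (nm v : ℝ) ^ (-(1 + u.re)) :=
    (nm_summable (by linarith)).mul_left 6
  refine Summable.of_norm_bounded h1 fun v => ?_
  have := lg_le a b v u hu.le
  have e : -(1 + u.re) = -1 - u.re := by ring
  rw [e]
  exact this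

theorem tsum_lg (a b : 𝓞 K) {u : ℂ} (hu : 0 < u.re) :
    ∑' v : HeightOneSpectrum (𝓞 K), lg a b u v = ∑' p : Nat.Primes, lamG a b (p : ℕ) u := by
  have hg := lg_summable a b hu
  have h0 := ((Equiv.sigmaFiberEquiv (below (K := K))).summable_iff.mpr hg)
  have h1 := h0.tsum_sigma
  have h2 : ∑' c : (y : Nat.Primes) × {v : HeightOneSpectrum (𝓞 K) // below v = y},
      ((fun v => lg a b u v) ∘ (Equiv.sigmaFiberEquiv (below (K := K)))) c = ∑' v, lg a b u v :=
    (Equiv.sigmaFiberEquiv (below (K := K))).tsum_eq _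
  rw [← h2, h1]
  refine tsum_congr fun p => ?_
  rw [tsum_fintype, lamG_prime]
  rfl

open Classical in
theorem exp_lg (a b : 𝓞 K) {u : ℂ} (hu : 0 < u.re) :
    ∏' v : HeightOneSpectrum (𝓞 K), (if dd a b ∈ v.asIdeal then 1 else
      (1 - (trc (shm a b) v : ℂ) * ((nm v : ℕ) : ℂ) ^ (-(3 / 2 + u)) +
        ((nm v : ℕ) : ℂ) ^ (1 - 2 * (3 / 2 + u)))⁻¹) =
      Complex.exp (∑' p : Nat.Primes, lamG a b (p : ℕ) u) := by
  have h2 := (lg_summable a b hu).hasSum.cexp
  have h3 : (Complex.exp ∘ fun v => lg a b u v) = fun v : HeightOneSpectrum (𝓞 K) =>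
      (if dd a b ∈ v.asIdeal then 1 else
      (1 - (trc (shm a b) v : ℂ) * ((nm v : ℕ) : ℂ) ^ (-(3 / 2 + u)) +
        ((nm v : ℕ) : ℂ) ^ (1 - 2 * (3 / 2 + u)))⁻¹) := by
    funext v
    rw [Function.comp_apply, lg]
    split_ifs with h
    · exact Complex.exp_zero
    · rw [ll, Complex.exp_neg, Complex.exp_log
        (Pool.Agent.R433.MD.lf_ne_zero _ (by rw [re_s]; linarith) v)]
      have hΔ : (shm a b v).Δ ∉ v.asIdeal := by
        intro h4
        apply h
        have e : (shm a b v).Δ = -16 * (4 * a ^ 3 + 27 * b ^ 2) := by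
          unfold shm WeierstrassCurve.Δ WeierstrassCurve.b₂ WeierstrassCurve.b₄ WeierstrassCurve.b₆
            WeierstrassCurve.b₈
          ring
        rw [e] at h4
        rcases v.isPrime.mem_or_mem h4 with h5 | h5
        · exfalso
          apply six_of_dd h
          have h6 : (2 : 𝓞 K) ∈ v.asIdeal := by
            have h7 : (2 : 𝓞 K) ^ 4 ∈ v.asIdeal := by
              have : (2 : 𝓞 K) ^ 4 = -(-16) := by norm_num
              rw [this]
              exact v.asIdeal.neg_mem h5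
            exact v.isPrime.mem_of_pow_mem 4 h7
          have : (6 : 𝓞 K) = 3 * 2 := by norm_num
          rw [this]
          exact v.asIdeal.mul_mem_left _ h6
        · unfold dd
          exact v.asIdeal.mul_mem_left _ h5
      unfold lf dlt
      rw [if_neg hΔ, one_mul]
  rw [h3] at h2
  rw [h2.tprod_eq, tsum_lg a b hu]

end

end Pool.Agent.N534.EC
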