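import Pool.Agent.R433.MD.Euler

/-!
# Local factors of an elliptic curve over a number field near the edge: bounds for integral models
-/

set_option autoImplicit false

namespace Pool.Agent.N534.EC

open NumberField IsDedekindDomain Complex
open Pool.Agent.H921R2.TatePole (nm two_le_nm nm_summable below deg nm_eq below_le_nm fiber_card_le kerPrime
  kerPrime_bijective)
open Pool.Agent.H341R2.EC
open Pool.Agent.H341R2 (card_v)
open Pool.Agent.R433.MD (lf norm_nm_cpow lf_sub_one nm_pos)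

/-- Weil's bound, also for singular cubics. -/
theorem csum_le {k : Type*} [Field k] [Fintype k] [DecidableEq k] (h6 : (6 : k) ≠ 0) (c c' : k) :
    |(csum c c' : ℝ)| ≤ 2 * Real.sqrt (Fintype.card k) := by
  have h2 : (2 : k) ≠ 0 := by
    intro h; apply h6
    have : (6 : k) = 3 * 2 := by norm_num
    rw [this, h, mul_zero]
  have hk : ringChar k ≠ 2 := by
    intro h
    apply h2
    have := ringChar.Nat.cast_ringChar (R := k)
    rw [h] at this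
    exact_mod_cast this
  have hdeg := cub_natDegree c c'
  have h1 := Pool.Agent.H341R2.Sharp.weil_sharp hk (cub c c') (by omega) (by
    intro a q hq
    have ha : a ≠ 0 := by
      rintro rfl
      rw [Polynomial.C_0, zero_mul] at hq
      rw [hq] at hdeg
      simp at hdeg
    have hqd : 2 * q.natDegree = 3 := by
      rw [hq, Polynomial.natDegree_C_mul ha, Polynomial.natDegree_pow] at hdeg
      exact hdeg
    omega)
  rw [hdeg] at h1
  unfold csum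
  push_cast
  refine h1.trans (le_of_eq ?_)
  norm_num

section
variable {K : Type} [Field K] [NumberField K]

theorem trc_eq (V : HeightOneSpectrum (𝓞 K) → WeierstrassCurve (𝓞 K)) (v : HeightOneSpectrum (𝓞 K))
    (h6 : (6 : 𝓞 K) ∉ v.asIdeal) : trc V v = -csum (red v (V v)).c₄ (red v (V v)).c₆ := by
  have h6' : (6 : 𝓞 K ⧸ v.asIdeal) ≠ 0 := by
    have := mk_ne h6
    rwa [map_ofNat] at this
  unfold trc
  rw [aff_eq_short h6', short_eq h6', card_v]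
  unfold csum
  ring

/-- the bound of Hasse for every integral model, good or bad -/
theorem trc_hasse (V : HeightOneSpectrum (𝓞 K) → WeierstrassCurve (𝓞 K)) (v : HeightOneSpectrum (𝓞 K))
    (h6 : (6 : 𝓞 K) ∉ v.asIdeal) : |(trc V v : ℝ)| ≤ 2 * Real.sqrt (nm v) := by
  have h6' : (6 : 𝓞 K ⧸ v.asIdeal) ≠ 0 := by
    have := mk_ne h6
    rwa [map_ofNat] at this
  rw [trc_eq V v h6]
  push_cast
  rw [abs_neg]
  have := csum_le h6' (red v (V v)).c₄ (red v (V v)).c₆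
  rwa [card_v] at this

/-- the logarithm of the local factor at the distance `u` from the point `3/2` -/
noncomputable def ll (V : HeightOneSpectrum (𝓞 K) → WeierstrassCurve (𝓞 K)) (u : ℂ)
    (v : HeightOneSpectrum (𝓞 K)) : ℂ := -Complex.log (lf V (3 / 2 + u) v)

theorem re_s (u : ℂ) : ((3 : ℂ) / 2 + u).re = 3 / 2 + u.re := by
  simp

theorem sqrt_mul_rpow (q : ℝ) (hq : 0 < q) (x : ℝ) :
    Real.sqrt q * q ^ (-(3 / 2 + x)) = q ^ (-1 - x) := by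
  rw [Real.sqrt_eq_rpow, ← Real.rpow_add hq]
  congr 1
  ring

theorem sub_one_good (V : HeightOneSpectrum (𝓞 K) → WeierstrassCurve (𝓞 K)) (v : HeightOneSpectrum (𝓞 K))
    (h6 : (6 : 𝓞 K) ∉ v.asIdeal) (u : ℂ) (hu : 0 ≤ u.re) :
    ‖lf V (3 / 2 + u) v - 1‖ ≤ 3 * (nm v : ℝ) ^ (-1 - u.re) := by
  have hq : (2 : ℝ) ≤ nm v := by exact_mod_cast two_le_nm v
  have h1 := lf_sub_one V (3 / 2 + u) v (trc_hasse V v h6)
  rw [re_s, mul_assoc, sqrt_mul_rpow _ (by linarith)] at h1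
  have h2 : (nm v : ℝ) ^ (1 - 2 * (3 / 2 + u.re)) ≤ (nm v : ℝ) ^ (-1 - u.re) :=
    Real.rpow_le_rpow_of_exponent_le (by linarith) (by linarith)
  linarith

theorem sub_one_half (V : HeightOneSpectrum (𝓞 K) → WeierstrassCurve (𝓞 K)) (v : HeightOneSpectrum (𝓞 K))
    (h6 : (6 : 𝓞 K) ∉ v.asIdeal) (u : ℂ) (hu : 0 ≤ u.re) :
    ‖lf V (3 / 2 + u) v - 1‖ ≤ 1 / 2 := by
  have hq : (5 : ℝ) ≤ nm v := by exact_mod_cast five_le_v h6
  have h1 := lf_sub_one V (3 / 2 + u) v (trc_hasse V v h6)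
  rw [re_s, mul_assoc, sqrt_mul_rpow _ (by linarith)] at h1
  have h2 : (nm v : ℝ) ^ (1 - 2 * (3 / 2 + u.re)) ≤ (nm v : ℝ) ^ (-2 : ℝ) :=
    Real.rpow_le_rpow_of_exponent_le (by linarith) (by linarith)
  have h3 : (nm v : ℝ) ^ (-1 - u.re) ≤ (nm v : ℝ) ^ (-1 : ℝ) :=
    Real.rpow_le_rpow_of_exponent_le (by linarith) (by linarith)
  have h4 : (nm v : ℝ) ^ (-1 : ℝ) ≤ 1 / 5 := by
    rw [Real.rpow_neg_one, one_div]
    exact inv_anti₀ (by norm_num) hq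
  have h5 : (nm v : ℝ) ^ (-2 : ℝ) ≤ 1 / 25 := by
    have : (nm v : ℝ) ^ (-2 : ℝ) = ((nm v : ℝ) ^ (-1 : ℝ)) ^ 2 := by
      rw [← Real.rpow_natCast, ← Real.rpow_mul (by linarith)]
      norm_num
    rw [this]
    have h0 : 0 ≤ (nm v : ℝ) ^ (-1 : ℝ) := by positivity
    nlinarith
  linarith

/-- The first order term. -/
theorem ll_near (V : HeightOneSpectrum (𝓞 K) → WeierstrassCurve (𝓞 K)) (v : HeightOneSpectrum (𝓞 K))
    (h6 : (6 : 𝓞 K) ∉ v.asIdeal) (u : ℂ) (hu : 0 ≤ u.re) :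
    ‖ll V u v - (trc V v : ℂ) * ((nm v : ℕ) : ℂ) ^ (-((3 : ℂ) / 2 + u))‖ ≤ 10 * (1 / (nm v : ℝ) ^ 2) := by
  have hq : (2 : ℝ) ≤ nm v := by exact_mod_cast two_le_nm v
  set z := lf V (3 / 2 + u) v - 1 with hz
  have h1 := sub_one_half V v h6 u hu
  have h2 := sub_one_good V v h6 u hu
  rw [← hz] at h1 h2
  have e1 : lf V (3 / 2 + u) v = 1 + z := by rw [hz]; ring
  have h3 : ‖Complex.log (1 + z) - z‖ ≤ ‖z‖ ^ 2 := by
    have h4 := Complex.norm_log_one_add_sub_self_le (z := z) (by linarith)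
    have h5 : (1 - ‖z‖)⁻¹ ≤ 2 := by
      rw [inv_le_comm₀ (by linarith) (by norm_num)]
      linarith
    calc _ ≤ ‖z‖ ^ 2 * (1 - ‖z‖)⁻¹ / 2 := h4
      _ ≤ ‖z‖ ^ 2 * 2 / 2 := by gcongr
      _ = _ := by ring
  have e2 : z = -((trc V v : ℂ) * ((nm v : ℕ) : ℂ) ^ (-((3 : ℂ) / 2 + u))) +
      dlt V v * ((nm v : ℕ) : ℂ) ^ (1 - 2 * ((3 : ℂ) / 2 + u)) := by
    rw [hz, lf]
    ring
  have e3 : ll V u v - (trc V v : ℂ) * ((nm v : ℕ) : ℂ) ^ (-((3 : ℂ) / 2 + u)) =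
      -(Complex.log (1 + z) - z) - dlt V v * ((nm v : ℕ) : ℂ) ^ (1 - 2 * ((3 : ℂ) / 2 + u)) := by
    rw [ll, e1]
    linear_combination (-1 : ℂ) * e2
  rw [e3]
  refine (norm_sub_le _ _).trans ?_
  rw [norm_neg]
  have h6 : ‖dlt V v * ((nm v : ℕ) : ℂ) ^ (1 - 2 * ((3 : ℂ) / 2 + u))‖ ≤ 1 / (nm v : ℝ) ^ 2 := by
    rw [norm_mul, norm_nm_cpow]
    have e4 : (1 - 2 * ((3 : ℂ) / 2 + u)).re = -2 - 2 * u.re := by
      simp
      ring
    rw [e4]
    have h7 : (nm v : ℝ) ^ (-2 - 2 * u.re) ≤ (nm v : ℝ) ^ (-2 : ℝ) :=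
      Real.rpow_le_rpow_of_exponent_le (by linarith) (by linarith)
    have h8 : (nm v : ℝ) ^ (-2 : ℝ) = 1 / (nm v : ℝ) ^ 2 := by
      rw [Real.rpow_neg (by linarith), one_div]
      norm_cast
    have h9 := Pool.Agent.R433.MD.dlt_le V v
    have h10 : 0 ≤ (nm v : ℝ) ^ (-2 - 2 * u.re) := by positivity
    nlinarith [norm_nonneg (dlt V v)]
  have h7 : ‖z‖ ^ 2 ≤ 9 * (1 / (nm v : ℝ) ^ 2) := by
    have h8 : (nm v : ℝ) ^ (-1 - u.re) ≤ (nm v : ℝ) ^ (-1 : ℝ) :=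
      Real.rpow_le_rpow_of_exponent_le (by linarith) (by linarith)
    rw [Real.rpow_neg_one] at h8
    have h9 : ‖z‖ ≤ 3 * ((nm v : ℝ))⁻¹ := by linarith
    calc ‖z‖ ^ 2 ≤ (3 * ((nm v : ℝ))⁻¹) ^ 2 := by gcongr
      _ = _ := by rw [mul_pow, one_div, inv_pow]; norm_num
  linarith

theorem ll_good (V : HeightOneSpectrum (𝓞 K) → WeierstrassCurve (𝓞 K)) (v : HeightOneSpectrum (𝓞 K))
    (h6 : (6 : 𝓞 K) ∉ v.asIdeal) (u : ℂ) (hu : 0 ≤ u.re) :
    ‖ll V u v‖ ≤ 6 * (nm v : ℝ) ^ (-1 - u.re) := by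
  set z := lf V (3 / 2 + u) v - 1 with hz
  have h1 := sub_one_half V v h6 u hu
  have h2 := sub_one_good V v h6 u hu
  rw [← hz] at h1 h2
  have e1 : lf V (3 / 2 + u) v = 1 + z := by rw [hz]; ring
  have h3 : ‖Complex.log (1 + z)‖ ≤ 3 / 2 * ‖z‖ := Complex.norm_log_one_add_half_le_self h1
  rw [ll, e1, norm_neg]
  have : 0 ≤ (nm v : ℝ) ^ (-1 - u.re) := by positivity
  linarith

/-- at all primes -/
theorem ll_all (V : HeightOneSpectrum (𝓞 K) → WeierstrassCurve (𝓞 K)) (v : HeightOneSpectrum (𝓞 K))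
    (u : ℂ) (hu : 0 ≤ u.re) : ‖ll V u v‖ ≤ 100 * (nm v : ℝ) ^ (-(1 / 2) - u.re) := by
  have hq : (2 : ℝ) ≤ nm v := by exact_mod_cast two_le_nm v
  have h0 := trc_le V v
  have h0' : |(trc V v : ℝ)| ≤ (nm v : ℝ) := by exact_mod_cast h0
  have h1 := lf_sub_one V (3 / 2 + u) v h0'
  rw [re_s] at h1
  have e1 : (nm v : ℝ) * (nm v : ℝ) ^ (-(3 / 2 + u.re)) = (nm v : ℝ) ^ (-(1 / 2) - u.re) := by
    rw [← Real.rpow_one_add' (by linarith) (by linarith)]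
    congr 1
    ring
  rw [e1] at h1
  set w := (nm v : ℝ) ^ (-(1 / 2) - u.re) with hw
  have hw0 : 0 < w := by positivity
  have h2 : (nm v : ℝ) ^ (1 - 2 * (3 / 2 + u.re)) ≤ w :=
    Real.rpow_le_rpow_of_exponent_le (by linarith) (by linarith)
  have h3 : (nm v : ℝ) ^ (1 - 2 * (3 / 2 + u.re)) ≤ 1 / 4 := by
    calc _ ≤ (nm v : ℝ) ^ (-(2 : ℝ)) := Real.rpow_le_rpow_of_exponent_le (by linarith) (by linarith)
      _ ≤ (2 : ℝ) ^ (-(2 : ℝ)) := Real.rpow_le_rpow_of_nonpos (by norm_num) hq (by norm_num)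
      _ = 1 / 4 := by
          rw [Real.rpow_neg (by norm_num)]
          norm_num
  have h4 : w ≤ 71 / 100 := by
    have h5 : w ≤ (2 : ℝ) ^ (-(1 / 2) : ℝ) := by
      calc w ≤ (nm v : ℝ) ^ (-(1 / 2) : ℝ) :=
            Real.rpow_le_rpow_of_exponent_le (by linarith) (by linarith)
        _ ≤ _ := Real.rpow_le_rpow_of_nonpos (by norm_num) hq (by norm_num)
    have h7 : ((2 : ℝ) ^ (-(1 / 2) : ℝ)) ^ 2 = 1 / 2 := by
      rw [← Real.rpow_natCast, ← Real.rpow_mul (by norm_num)]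
      norm_num
    have h8 : (0 : ℝ) ≤ (2 : ℝ) ^ (-(1 / 2) : ℝ) := by positivity
    nlinarith
  set z := lf V (3 / 2 + u) v - 1 with hz
  have e2 : lf V (3 / 2 + u) v = 1 + z := by rw [hz]; ring
  have h5 : ‖z‖ ≤ 96 / 100 := by linarith
  have h6 : ‖z‖ ≤ 2 * w := by linarith
  have h7 := Complex.norm_log_one_add_le (z := z) (by linarith)
  rw [ll, e2, norm_neg]
  have h8 : (1 - ‖z‖)⁻¹ ≤ 25 := by
    rw [inv_le_comm₀ (by linarith) (by norm_num)]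
    linarith
  have h9 : 0 ≤ ‖z‖ := norm_nonneg z
  have h10 : 0 < (1 - ‖z‖)⁻¹ := by
    have : 0 < 1 - ‖z‖ := by linarith
    positivity
  calc _ ≤ ‖z‖ ^ 2 * (1 - ‖z‖)⁻¹ / 2 + ‖z‖ := h7
    _ ≤ ‖z‖ ^ 2 * 25 / 2 + ‖z‖ := by gcongr
    _ ≤ 100 * w := by nlinarith

end

end Pool.Agent.N534.EC
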