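import Pool.Agent.N534.EC.Two

/-!
# The Euler product as the exponential of the sum of the local logarithms
-/

set_option autoImplicit false

namespace Pool.Agent.N534.EC

open NumberField IsDedekindDomain Finset Filter
open Pool.Agent.H921R2.TatePole (nm two_le_nm nm_summable below deg nm_eq)
open Pool.Agent.H341R2.EC (trc IsMinAt finite_mem)
open Pool.Agent.R433.MD (lf lf_ne_zero)
open Pool.Agent.Y722.HS (EM red box EB EM_mono EM_const p_pos)
open Pool.Agent.Y722.LS (Fam)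
open Pool.Agent.N534.LF (Loc)

section
variable {K : Type} [Field K] [NumberField K]

theorem ll_summable (V : HeightOneSpectrum (𝓞 K) → WeierstrassCurve (𝓞 K)) {u : ℂ} (hu : 0 < u.re) :
    Summable fun v : HeightOneSpectrum (𝓞 K) => ll V u v := by
  have h1 : Summable fun v : HeightOneSpectrum (𝓞 K) => 6 * (nm v : ℝ) ^ (-(1 + u.re)) :=
    (nm_summable (by linarith)).mul_left 6
  refine Summable.of_norm_bounded_eventually h1 ?_
  have h6 : (6 : 𝓞 K) ≠ 0 := by norm_num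
  filter_upwards [(finite_mem (K := K) h6).compl_mem_cofinite] with v hv
  have hv' : (6 : 𝓞 K) ∉ v.asIdeal := hv
  have := ll_good V v hv' u hu.le
  have e : -(1 + u.re) = -1 - u.re := by ring
  rw [e]
  exact this

theorem tsum_ll (V : HeightOneSpectrum (𝓞 K) → WeierstrassCurve (𝓞 K)) {u : ℂ} (hu : 0 < u.re) :
    ∑' v : HeightOneSpectrum (𝓞 K), ll V u v = ∑' p : Nat.Primes, lamV V p u := by
  have hg := ll_summable V hu
  have h0 := ((Equiv.sigmaFiberEquiv (below (K := K))).summable_iff.mpr hg)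
  have h1 := h0.tsum_sigma
  have h2 : ∑' c : (y : Nat.Primes) × {v : HeightOneSpectrum (𝓞 K) // below v = y},
      ((fun v => ll V u v) ∘ (Equiv.sigmaFiberEquiv (below (K := K)))) c = ∑' v, ll V u v :=
    (Equiv.sigmaFiberEquiv (below (K := K))).tsum_eq _
  rw [← h2, h1]
  refine tsum_congr fun p => ?_
  rw [tsum_fintype, lamV_prime]
  rfl

theorem exp_ll (V : HeightOneSpectrum (𝓞 K) → WeierstrassCurve (𝓞 K)) {u : ℂ} (hu : 0 < u.re) :
    ∏' v, (lf V (3 / 2 + u) v)⁻¹ = Complex.exp (∑' v : HeightOneSpectrum (𝓞 K), ll V u v) := by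
  have h2 := (ll_summable V hu).hasSum.cexp
  have h3 : (Complex.exp ∘ fun v => ll V u v) = fun v => (lf V (3 / 2 + u) v)⁻¹ := by
    funext v
    rw [Function.comp_apply, ll, Complex.exp_neg, Complex.exp_log]
    exact lf_ne_zero V (by rw [re_s]; linarith) v
  rw [h3] at h2
  exact h2.tprod_eq

/-- **The majorant for the family.** -/
theorem majorant_two {I J : Type} [Fintype I] [Fintype J] [DecidableEq I] [DecidableEq J]
    (ω : Module.Basis I ℤ (𝓞 K)) (A B : MvPolynomial J (𝓞 K)) :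
    ∃ C : ℝ, 0 < C ∧ ∀ H : ℕ, 2 ≤ H → ∀ T : ℝ, 0 ≤ T → ∃ M : (I ⊕ J → ℤ) → ℝ,
      (∀ c, 0 ≤ M c) ∧ EB H M ≤ C * (1 + T) ∧
      ∀ (c : I ⊕ J → ℤ) (V : HeightOneSpectrum (𝓞 K) → WeierstrassCurve (𝓞 K)),
        (∀ v, IsMinAt (crv ω A B c) v (V v)) → ∀ u : ℂ, 1 / Real.log H ≤ u.re →
        u.re ≤ 1 → |u.im| ≤ T → ‖∑' v : HeightOneSpectrum (𝓞 K), ll V u v‖ ^ 2 ≤ M c := by
  obtain ⟨C, hC, h⟩ := Pool.Agent.N534.LF.majorant (fam (trFam ω A B))
    (β := 200 * dK K) (by have := dK_nonneg (K := K); positivity)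
  refine ⟨C, hC, fun H hH T hT => ?_⟩
  obtain ⟨M, hM0, hM1, hM2⟩ := h H hH T hT
  refine ⟨M, hM0, hM1, fun c V hV u h1 h2 h3 => ?_⟩
  have hlogH : 0 < Real.log H := Real.log_pos (by exact_mod_cast (by omega : 1 < H))
  have hu : 0 < u.re := lt_of_lt_of_le (by positivity) h1
  rw [tsum_ll V hu]
  exact hM2 c (lamV V) (loc_two ω A B c V hV) u h1 h2 h3

end

end Pool.Agent.N534.EC
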