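import Pool.Agent.N534.EC.Laws

/-!
# The quadratic twists near the whole line
-/

set_option autoImplicit false

namespace Pool.Agent.N534.EC

open NumberField IsDedekindDomain Finset
open Pool.Agent.H341R2.EC (trc csum IsMinAt)
open Pool.Agent.Y722.HS (EM red box EB)
open Pool.Agent.N534.LF (Loc)

section
variable {K : Type} [Field K] [NumberField K] {I : Type} [Fintype I] [DecidableEq I]
  (ω : Module.Basis I ℤ (𝓞 K)) (a b : 𝓞 K)

/-- the twist -/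
noncomputable def crvT (c : I → ℤ) : WeierstrassCurve K where
  a₁ := 0
  a₂ := 0
  a₃ := 0
  a₄ := (a * dc ω c ^ 2 : 𝓞 K)
  a₆ := (b * dc ω c ^ 3 : 𝓞 K)

theorem loc_twist (h0 : 4 * a ^ 3 + 27 * b ^ 2 ≠ 0) (c : I → ℤ)
    (V : HeightOneSpectrum (𝓞 K) → WeierstrassCurve (𝓞 K)) (hV : ∀ v, IsMinAt (crvT ω a b c) v (V v)) :
    Loc (200 * dK K) (Nf (St ω a b) (pbad a b)) (Bf (Dt ω a b) (pbad a b)) c (lamV V) := by
  refine loc_of (trFam_twist ω a b h0) c V ?_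
  intro p hp h5 φ hD
  have h5' : 5 ≤ (p : ℕ) := by unfold pbad at h5; omega
  have e1 : φ (a * dc ω c ^ 2) = φ a * rd ω p φ (red p c) ^ 2 := by rw [map_mul, map_pow, map_dc]
  have e2 : φ (b * dc ω c ^ 3) = φ b * rd ω p φ (red p c) ^ 3 := by rw [map_mul, map_pow, map_dc]
  have h1 := trc_short (a * dc ω c ^ 2) (b * dc ω c ^ 3) (crvT ω a b c) rfl V hV p h5' φ (by
    rw [e1, e2]
    exact hD)
  rw [h1, e1, e2]
  unfold St
  push_cast
  rfl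

/-- **The majorant for the twists.** -/
theorem majorant_twist (h0 : 4 * a ^ 3 + 27 * b ^ 2 ≠ 0) :
    ∃ C : ℝ, 0 < C ∧ ∀ H : ℕ, 2 ≤ H → ∀ T : ℝ, 0 ≤ T → ∃ M : (I → ℤ) → ℝ,
      (∀ c, 0 ≤ M c) ∧ EB H M ≤ C * (1 + T) ∧
      ∀ (c : I → ℤ) (V : HeightOneSpectrum (𝓞 K) → WeierstrassCurve (𝓞 K)),
        (∀ v, IsMinAt (crvT ω a b c) v (V v)) → ∀ u : ℂ, 1 / Real.log H ≤ u.re →
        u.re ≤ 1 → |u.im| ≤ T → ‖∑' v : HeightOneSpectrum (𝓞 K), ll V u v‖ ^ 2 ≤ M c := by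
  obtain ⟨C, hC, h⟩ := Pool.Agent.N534.LF.majorant (fam (trFam_twist ω a b h0))
    (β := 200 * dK K) (by have := dK_nonneg (K := K); positivity)
  refine ⟨C, hC, fun H hH T hT => ?_⟩
  obtain ⟨M, hM0, hM1, hM2⟩ := h H hH T hT
  refine ⟨M, hM0, hM1, fun c V hV u h1 h2 h3 => ?_⟩
  have hlogH : 0 < Real.log H := Real.log_pos (by exact_mod_cast (by omega : 1 < H))
  have hu : 0 < u.re := lt_of_lt_of_le (by positivity) h1
  rw [tsum_ll V hu]
  exact hM2 c (lamV V) (loc_twist ω a b h0 c V hV) u h1 h2 h3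

end

end Pool.Agent.N534.EC
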