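import Pool.Agent.N534.EC.Fib

/-!
# The curves `y² = x³ + A(u) x + B(u) + t` over a number field
-/

set_option autoImplicit false

namespace Pool.Agent.N534.EC

open NumberField IsDedekindDomain Finset
open Pool.Agent.H921R2.TatePole (nm two_le_nm nm_summable below deg nm_eq kerPrime kerPrime_bijective)
open Pool.Agent.H341R2.EC (trc csum csumv cub cub_eval IsMinAt count_good)
open Pool.Agent.H341R2 (quadraticChar_congr chi)
open Pool.Agent.Y722.HS (EM red box EB EM_mono EM_const p_pos)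
open Pool.Agent.Y722.LS (Fam EM_mul)
open Pool.Agent.N534.LF (Loc)

/-- averages are invariant under translation -/
theorem EM_shift {ι : Type} [Fintype ι] [DecidableEq ι] (p : ℕ) [Fact p.Prime] (e : ι → ZMod p)
    (G : (ι → ZMod p) → ℝ) : EM p G = EM p (fun r => (∑ s : ZMod p, G (r + s • e)) / p) := by
  have hp0 := p_pos (p := p)
  unfold EM
  congr 1
  have h1 : ∀ s : ZMod p, ∑ r : ι → ZMod p, G (r + s • e) = ∑ r : ι → ZMod p, G r := fun s =>
    Fintype.sum_equiv (Equiv.addRight (s • e)) _ _ fun r => rfl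
  rw [← Finset.sum_div, Finset.sum_comm, Finset.sum_congr rfl fun s _ => h1 s, Finset.sum_const,
    nsmul_eq_mul, Finset.card_univ, ZMod.card]
  field_simp

section
variable {K : Type} [Field K] [NumberField K] {I J : Type} [Fintype I] [Fintype J] [DecidableEq I]
  [DecidableEq J] (ω : Module.Basis I ℤ (𝓞 K)) (A B : MvPolynomial J (𝓞 K))

/-- the coefficient of `x` -/
noncomputable def ca (c : I ⊕ J → ℤ) : 𝓞 K := MvPolynomial.eval (fun j => ((c (Sum.inr j) : ℤ) : 𝓞 K)) A

/-- the constant coefficient -/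
noncomputable def cb (c : I ⊕ J → ℤ) : 𝓞 K :=
  MvPolynomial.eval (fun j => ((c (Sum.inr j) : ℤ) : 𝓞 K)) B + ∑ i, ((c (Sum.inl i) : ℤ) : 𝓞 K) * ω i

/-- the curve `y² = x³ + A(u) x + B(u) + t` -/
noncomputable def crv (c : I ⊕ J → ℤ) : WeierstrassCurve K where
  a₁ := 0
  a₂ := 0
  a₃ := 0
  a₄ := (ca A c : K)
  a₆ := (cb ω B c : K)

/-- the coefficients modulo a prime of degree one -/
noncomputable def ra (p : ℕ) (φ : 𝓞 K →+* ZMod p) (r : I ⊕ J → ZMod p) : ZMod p :=
  MvPolynomial.eval₂ φ (fun j => r (Sum.inr j)) A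

/-- the coefficients modulo a prime of degree one -/
noncomputable def rb (p : ℕ) (φ : 𝓞 K →+* ZMod p) (r : I ⊕ J → ZMod p) : ZMod p :=
  MvPolynomial.eval₂ φ (fun j => r (Sum.inr j)) B + ∑ i, r (Sum.inl i) * φ (ω i)

theorem map_ca (p : ℕ) (φ : 𝓞 K →+* ZMod p) (c : I ⊕ J → ℤ) : φ (ca A c) = ra A p φ (red p c) := by
  unfold ca ra
  have h := MvPolynomial.eval₂_comp_left φ (RingHom.id (𝓞 K)) (fun j => ((c (Sum.inr j) : ℤ) : 𝓞 K)) A
  rw [RingHom.comp_id] at h
  have h2 : MvPolynomial.eval (fun j => ((c (Sum.inr j) : ℤ) : 𝓞 K)) A =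
      MvPolynomial.eval₂ (RingHom.id (𝓞 K)) (fun j => ((c (Sum.inr j) : ℤ) : 𝓞 K)) A := rfl
  rw [h2, h]
  congr 1
  funext j
  simp [red]

theorem map_cb (p : ℕ) (φ : 𝓞 K →+* ZMod p) (c : I ⊕ J → ℤ) : φ (cb ω B c) = rb ω B p φ (red p c) := by
  unfold cb rb
  rw [map_add, map_sum]
  have h := map_ca B p φ c
  unfold ca ra at h
  rw [h]
  congr 1
  refine Finset.sum_congr rfl fun i _ => ?_
  rw [map_mul, map_intCast]
  rfl

/-- the trace -/
noncomputable def Sf (p : ℕ) [Fact p.Prime] (φ : 𝓞 K →+* ZMod p) (r : I ⊕ J → ZMod p) : ℝ :=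
  -(csum (-48 * ra A p φ r) (-864 * rb ω B p φ r) : ℝ)

/-- bad reduction -/
def Df (p : ℕ) [Fact p.Prime] (φ : 𝓞 K →+* ZMod p) (r : I ⊕ J → ZMod p) : Prop :=
  4 * ra A p φ r ^ 3 + 27 * rb ω B p φ r ^ 2 = 0

theorem exists_dir (p : ℕ) (φ : 𝓞 K →+* ZMod p) : ∃ e : I ⊕ J → ZMod p,
    (∀ j, e (Sum.inr j) = 0) ∧ ∑ i, e (Sum.inl i) * φ (ω i) = 1 := by
  refine ⟨Sum.elim (fun i => ((ω.repr 1 i : ℤ) : ZMod p)) (fun _ => 0), fun j => rfl, ?_⟩
  have h1 := ω.sum_repr 1
  have h2 := congrArg φ h1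
  rw [map_sum] at h2
  rw [← map_one φ, ← h2]
  refine Finset.sum_congr rfl fun i _ => ?_
  rw [Sum.elim_inl, zsmul_eq_mul, map_mul, map_intCast]

theorem ra_shift (p : ℕ) (φ : 𝓞 K →+* ZMod p) (r e : I ⊕ J → ZMod p) (he : ∀ j, e (Sum.inr j) = 0)
    (s : ZMod p) : ra A p φ (r + s • e) = ra A p φ r := by
  unfold ra
  congr 1
  funext j
  simp [he j]

theorem rb_shift (p : ℕ) (φ : 𝓞 K →+* ZMod p) (r e : I ⊕ J → ZMod p) (he : ∀ j, e (Sum.inr j) = 0)
    (he1 : ∑ i, e (Sum.inl i) * φ (ω i) = 1) (s : ZMod p) :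
    rb ω B p φ (r + s • e) = rb ω B p φ r + s := by
  unfold rb
  have h1 := ra_shift B p φ r e he s
  unfold ra at h1
  rw [h1, add_assoc]
  congr 1
  have h2 : ∀ i, (r + s • e) (Sum.inl i) * φ (ω i) = r (Sum.inl i) * φ (ω i) + s * (e (Sum.inl i) * φ (ω i)) := by
    intro i
    simp only [Pi.add_apply, Pi.smul_apply, smul_eq_mul]
    ring
  rw [Finset.sum_congr rfl fun i _ => h2 i, Finset.sum_add_distrib, ← Finset.mul_sum, he1, mul_one]

theorem six_ne {p : ℕ} (hp : p.Prime) (h5 : 5 ≤ p) : (6 : ZMod p) ≠ 0 := by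
  intro h
  have h1 : ((6 : ℕ) : ZMod p) = 0 := by exact_mod_cast h
  rw [ZMod.natCast_eq_zero_iff] at h1
  have h2 : p ∣ 2 * 3 := h1
  rcases (Nat.Prime.dvd_mul hp).mp h2 with h3 | h3
  · have := Nat.le_of_dvd (by norm_num) h3; omega
  · have := Nat.le_of_dvd (by norm_num) h3; omega

theorem sum_char {k : Type*} [Field k] [Fintype k] [DecidableEq k] (hk : ringChar k ≠ 2) (a b : k) (hb : b ≠ 0) :
    ∑ s : k, quadraticChar k (a + b * s) = 0 := by
  have h1 : ∑ s : k, quadraticChar k (a + b * s) = ∑ s : k, quadraticChar k s := by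
    refine Fintype.sum_equiv ((Equiv.mulLeft₀ b hb).trans (Equiv.addLeft a)) _ _ fun s => rfl
  rw [h1]
  exact quadraticChar_sum_zero hk

theorem csum_sum {k : Type*} [Field k] [Fintype k] [DecidableEq k] (h6 : (6 : k) ≠ 0) (P b : k) :
    ∑ s : k, csum P (-864 * (b + s)) = 0 := by
  have h2 : (2 : k) ≠ 0 := by
    intro h; apply h6
    have : (6 : k) = 3 * 2 := by norm_num
    rw [this, h, mul_zero]
  have hk : ringChar k ≠ 2 := by
    intro h
    apply h2
    have := ringChar.Nat.cast_ringChar (R := k)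
    rw [h] at this
    exact_mod_cast this
  unfold csum
  rw [Finset.sum_comm]
  refine Finset.sum_eq_zero fun x _ => ?_
  have h66 : (46656 : k) ≠ 0 := by
    have : (46656 : k) = 6 ^ 6 := by norm_num
    rw [this]
    exact pow_ne_zero _ h6
  have h1 := sum_char hk (x ^ 3 - 27 * P * x + 46656 * b) 46656 h66
  rw [← h1]
  refine Finset.sum_congr rfl fun s _ => ?_
  rw [cub_eval]
  congr 1
  ring

theorem trFam : TrFam (Sf ω A B) (Df ω A B) 2 5 where
  C0 := by norm_num
  five := le_rfl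
  mean := by
    intro p hp h5 φ
    obtain ⟨e, he, he1⟩ := exists_dir (J := J) ω p φ
    rw [EM_shift p e]
    have h1 : (fun r : I ⊕ J → ZMod p => (∑ s : ZMod p, Sf ω A B p φ (r + s • e)) / (p : ℝ)) = fun _ => 0 := by
      funext r
      have h2 : ∑ s : ZMod p, Sf ω A B p φ (r + s • e) = 0 := by
        unfold Sf
        simp only [ra_shift A p φ r e he, rb_shift ω B p φ r e he he1]
        have h3 := csum_sum (six_ne hp.out h5) (-48 * ra A p φ r) (rb ω B p φ r)
        rw [Finset.sum_neg_distrib, ← Int.cast_sum, h3]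
        simp
      rw [h2, zero_div]
    rw [h1, EM_const]
  bd := by
    intro p hp h5 φ r
    unfold Sf
    rw [abs_neg]
    have := csum_le (six_ne hp.out h5) (-48 * ra A p φ r) (-864 * rb ω B p φ r)
    rwa [ZMod.card] at this
  bad := by
    intro p hp h5 φ
    classical
    have hp0 := p_pos (p := p)
    obtain ⟨e, he, he1⟩ := exists_dir (J := J) ω p φ
    rw [EM_shift p e]
    have h1 : EM p (fun r : I ⊕ J → ZMod p =>
        (∑ s : ZMod p, if Df ω A B p φ (r + s • e) then (1 : ℝ) else 0) / (p : ℝ)) ≤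
        EM p (fun _ : I ⊕ J → ZMod p => (2 : ℝ) / p) := by
      apply EM_mono
      intro r
      refine div_le_div_of_nonneg_right ?_ hp0.le
      rw [Finset.sum_ite, Finset.sum_const_zero, add_zero, Finset.sum_const, nsmul_eq_mul, mul_one]
      have h2 : (Finset.univ.filter fun s : ZMod p => Df ω A B p φ (r + s • e)) ⊆
          ((Polynomial.C 27 * (Polynomial.X + Polynomial.C (rb ω B p φ r)) ^ 2 +
            Polynomial.C (4 * ra A p φ r ^ 3) : Polynomial (ZMod p))).roots.toFinset := by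
        intro s hs
        rw [Finset.mem_filter] at hs
        have h3 := hs.2
        unfold Df at h3
        rw [ra_shift A p φ r e he, rb_shift ω B p φ r e he he1] at h3
        have h27 : (27 : ZMod p) ≠ 0 := by
          intro h
          apply six_ne hp.out h5
          have h4 : (3 : ZMod p) ^ 3 = 0 := by
            have : (27 : ZMod p) = 3 ^ 3 := by norm_num
            rw [← this]; exact h
          have h5 : (3 : ZMod p) = 0 := by
            exact pow_eq_zero_iff (by norm_num) |>.mp h4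
          have : (6 : ZMod p) = 2 * 3 := by norm_num
          rw [this, h5, mul_zero]
        rw [Multiset.mem_toFinset, Polynomial.mem_roots']
        constructor
        · intro h0
          have h4 := congrArg (fun q : Polynomial (ZMod p) => q.coeff 2) h0
          have h5 : (Polynomial.C 27 * (Polynomial.X + Polynomial.C (rb ω B p φ r)) ^ 2 +
            Polynomial.C (4 * ra A p φ r ^ 3) : Polynomial (ZMod p)) =
              Polynomial.C 27 * Polynomial.X ^ 2 + Polynomial.C (54 * rb ω B p φ r) * Polynomial.X +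
              Polynomial.C (27 * rb ω B p φ r ^ 2 + 4 * ra A p φ r ^ 3) := by
            simp only [map_mul, map_add, map_pow]
            have : (Polynomial.C (54 : ZMod p)) = 2 * Polynomial.C 27 := by
              rw [← Polynomial.C_ofNat, ← Polynomial.C_mul]
              congr 1
              norm_num
            rw [this]
            ring
          rw [h5] at h4
          simp only [Polynomial.coeff_add, Polynomial.coeff_C_mul, Polynomial.coeff_X_pow,
            Polynomial.coeff_zero, Polynomial.coeff_X, Polynomial.coeff_C] at h4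
          norm_num at h4
          exact h27 h4
        · simp only [Polynomial.IsRoot, Polynomial.eval_add, Polynomial.eval_mul, Polynomial.eval_C,
            Polynomial.eval_pow, Polynomial.eval_X]
          rw [← h3]
          ring
      have h3 := Finset.card_le_card h2
      have h4 : ((Polynomial.C 27 * (Polynomial.X + Polynomial.C (rb ω B p φ r)) ^ 2 +
            Polynomial.C (4 * ra A p φ r ^ 3) : Polynomial (ZMod p))).roots.toFinset.card ≤ 2 := by
        refine (Multiset.toFinset_card_le _).trans ((Polynomial.card_roots' _).trans ?_)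
        compute_degree
      exact_mod_cast h3.trans h4
    refine h1.trans ?_
    rw [EM_const]

theorem csum_congr {k k' : Type*} [Field k] [Fintype k] [DecidableEq k] [Field k'] [Fintype k']
    [DecidableEq k'] (e : k ≃+* k') (c c' : k) : csum (e c) (e c') = csum c c' := by
  unfold csum
  refine (Fintype.sum_equiv e.toEquiv _ _ fun x => ?_).symm
  rw [cub_eval]
  change _ = quadraticChar k' ((cub (e c) (e c')).eval (e x))
  rw [cub_eval, ← quadraticChar_congr e]
  congr 1
  simp only [map_sub, map_mul, map_pow, map_ofNat]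

theorem csumv_kerPrime (P Q : 𝓞 K) (p : Nat.Primes) [Fact (p : ℕ).Prime] (φ : 𝓞 K →+* ZMod (p : ℕ)) :
    csumv P Q (kerPrime p φ).1.1 = csum (φ P) (φ Q) := by
  let e := RingHom.quotientKerEquivOfSurjective (ZMod.ringHom_surjective φ)
  have h1 : ∀ d : 𝓞 K, φ d = e (Ideal.Quotient.mk (RingHom.ker φ) d) := fun d => rfl
  rw [h1 P, h1 Q]
  exact (csum_congr (k := 𝓞 K ⧸ (kerPrime p φ).1.1.asIdeal) e _ _).symm

/-- the trace of a curve in short form at a prime of degree one -/
theorem trc_short (a b : 𝓞 K) (E : WeierstrassCurve K) (hE : E = ⟨0, 0, 0, (a : K), (b : K)⟩)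
    (V : HeightOneSpectrum (𝓞 K) → WeierstrassCurve (𝓞 K)) (hV : ∀ v, IsMinAt E v (V v))
    (p : Nat.Primes) [Fact (p : ℕ).Prime] (h5 : 5 ≤ (p : ℕ)) (φ : 𝓞 K →+* ZMod (p : ℕ))
    (hD : 4 * φ a ^ 3 + 27 * φ b ^ 2 ≠ 0) :
    trc V (kerPrime p φ).1.1 = -csum (-48 * φ a) (-864 * φ b) := by
  set v := (kerPrime p φ).1.1 with hv
  have hker : ∀ x : 𝓞 K, x ∈ v.asIdeal ↔ φ x = 0 := fun x => by
    have : v.asIdeal = RingHom.ker φ := rfl
    rw [this, RingHom.mem_ker]
  have h6 : (6 : 𝓞 K) ∉ v.asIdeal := by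
    rw [hker, map_ofNat]
    exact six_ne p.2 h5
  have h1 : IsMinAt (Pool.Agent.H341R2.EC.twist E ((1 : 𝓞 K) : K)) v (V v) := by
    have e1 : ((1 : 𝓞 K) : K) = 1 := map_one (algebraMap (𝓞 K) K)
    rw [e1]
    exact Pool.Agent.R433.MD.isMinAt_one E v _ (hV v)
  have hP : (((-48 * a : 𝓞 K)) : K) = (((1 : 𝓞 K)) : K) ^ 4 * E.c₄ := by
    rw [hE]
    simp only [WeierstrassCurve.c₄, WeierstrassCurve.b₂, WeierstrassCurve.b₄, map_mul, map_neg, map_ofNat,
      map_one]
    ring
  have hQ : (((-864 * b : 𝓞 K)) : K) = (((1 : 𝓞 K)) : K) ^ 6 * E.c₆ := by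
    rw [hE]
    simp only [WeierstrassCurve.c₆, WeierstrassCurve.b₂, WeierstrassCurve.b₄, WeierstrassCurve.b₆, map_mul,
      map_neg, map_ofNat, map_one]
    ring
  have hDv : (-48 * a) ^ 3 - (-864 * b) ^ 2 ∉ v.asIdeal := by
    rw [hker]
    have e2 : φ ((-48 * a) ^ 3 - (-864 * b) ^ 2) = -27648 * (4 * φ a ^ 3 + 27 * φ b ^ 2) := by
      simp only [map_sub, map_pow, map_mul, map_neg, map_ofNat]
      ring
    rw [e2]
    apply mul_ne_zero _ hD
    rw [neg_ne_zero]
    intro h
    apply six_ne p.2 h5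
    have h7 : (6 : ZMod (p : ℕ)) ^ 10 = 0 := by
      have : (6 : ZMod (p : ℕ)) ^ 10 = 27648 * 2187 := by norm_num
      rw [this, h, zero_mul]
    exact pow_eq_zero_iff (by norm_num) |>.mp h7
  have h2 := count_good one_ne_zero hP hQ h1 h6 (fun h => v.isPrime.ne_top
    (v.asIdeal.eq_top_iff_one.2 h)) hDv
  have h3 := h2.2
  unfold trc
  rw [h3]
  have h4 : chi (1 : 𝓞 K) v = 1 := by
    unfold chi
    rw [map_one, map_one]
  rw [h4, one_mul, hv, csumv_kerPrime]
  simp only [map_mul, map_neg, map_ofNat]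
  ring

theorem loc_two (c : I ⊕ J → ℤ) (V : HeightOneSpectrum (𝓞 K) → WeierstrassCurve (𝓞 K))
    (hV : ∀ v, IsMinAt (crv ω A B c) v (V v)) :
    Loc (200 * dK K) (Nf (Sf ω A B) 5) (Bf (Df ω A B) 5) c (lamV V) := by
  refine loc_of (trFam ω A B) c V ?_
  intro p hp h5 φ hD
  have h1 := trc_short (ca A c) (cb ω B c) (crv ω A B c) rfl V hV p h5 φ (by
    rw [map_ca, map_cb]
    exact hD)
  rw [h1, map_ca, map_cb]
  unfold Sf
  push_cast
  rfl

end

end Pool.Agent.N534.EC
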